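import Pool.Agent.Helper15.AB.GoalsD

/-! # Project AB, module DF: assembly -/

open MeasureTheory Set Filter Topology
open scoped ContDiff

noncomputable section

namespace Pool.Agent.Helper15.AB

open Pool.Agent.Helper24.AB

theorem lam_pos : 0 < lam := by
  unfold lam
  positivity

theorem isOpen_strip (b : ℝ) : IsOpen (strip b) := by
  unfold strip
  exact isOpen_lt (by fun_prop) continuous_const

theorem df_of (hTUBE : S_TUBE) (hTOPX : S_TOPX) (hDATA : S_DATA) (hNSM : S_NSM) (hNEQ : S_NEQ)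
    (hMVI : S_MVI) (hOPT : S_OPT) (hFIN : S_FIN) : S_GEO → S_DF := by
  intro hG η a A δ₀ ρ₀ Θ s p B hΘ hs hp hδ hsub hDF
  have hT := hTUBE hG η a A δ₀ ρ₀ s p B hs hp hδ hsub
  obtain ⟨-, -, -, -, -, -, hlap⟩ := hTOPX η a A δ₀ ρ₀ s p B hs hp hT
  obtain ⟨M₀, hM₀⟩ := hFIN a p hs.a_pos hp.p4
  -- the exponent
  set M : ℝ := max M₀ 1 + 1 with hM
  have hMpos : 0 < M := by positivity
  set ee : ℝ := M / (1 + M) with hee
  have h1M : 0 < 1 + M := by positivity
  have hee0 : 0 < ee := by positivity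
  have hee1 : ee < 1 := by rw [hee, div_lt_one h1M]; linarith
  have hq : ee / (1 - ee) = M := by
    rw [hee]
    field_simp
    ring
  obtain ⟨ρ, hρ, hpsh⟩ := hDF ee hee0 hee1
  obtain ⟨U, hD⟩ := hDATA η a A δ₀ ρ₀ Θ s p B hΘ hs hp hT ee ρ hee0 hee1 hρ hpsh
  set R : V4 → ℝ := fun P => ρ (Θ P) with hR
  set q := qf A p with hqf
  set N := Nf ee q R with hN
  obtain ⟨hNs, hNp⟩ := hNSM ee a q (mf s) _ U R hD
  have hNe : ∀ w ∈ strip (a / 2), N (w + 2 * Real.pi * Complex.I) = lam ^ (-ee) * N w :=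
    hNEQ ee a q (mf s) _ U R hD
  set G : ℂ → ℝ := fun w => -(ee⁻¹ * Real.log (N w)) with hGdef
  have hGs : ContDiffOn ℝ ∞ G (strip (a / 2)) :=
    (contDiffOn_const.mul (hNs.log fun w hw => (hNp w hw).ne')).neg
  have hGp : ∀ w ∈ strip (a / 2), G (w + 2 * Real.pi * Complex.I) = G w + Real.log lam := by
    intro w hw
    have h1 : Real.log (lam ^ (-ee) * N w) = -ee * Real.log lam + Real.log (N w) := by
      rw [Real.log_mul (Real.rpow_pos_of_pos lam_pos _).ne' (hNp w hw).ne', Real.log_rpow lam_pos]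
    simp only [hGdef]
    rw [hNe w hw, h1]
    field_simp
    ring
  have hineq : ∀ O : Set ℂ, IsOpen O → (∀ w ∈ O, w ∈ strip (3 * a / 2) → lapC p w = 0) →
      ∀ w ∈ O, w ∈ strip (a / 2) → M * ((dS G w) ^ 2 + (dT G w) ^ 2) ≤ lapC G w := by
    intro O hO hOp w hwO hw
    have h1 : ∀ᶠ w' in 𝓝 w, lapC q w' = 0 := by
      filter_upwards [hO.mem_nhds hwO, (isOpen_strip (a / 2)).mem_nhds hw] with w' h2 h3
      rw [hlap w' h3, hOp w' h2, neg_zero]
      have h4 : |w'.re| < a / 2 := h3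
      have h5 : 0 < a := hs.a_pos
      show |w'.re| < 3 * a / 2
      linarith
    have h2 := hOPT ee N w hee0 hee1 ((hNs.contDiffAt
      ((isOpen_strip _).mem_nhds hw)).of_le (WithTop.coe_le_coe.2 (le_top : (2 : ℕ∞) ≤ ⊤))) (hNp w hw)
      (hMVI ee a q (mf s) _ U R hD w hw h1)
    rw [hq] at h2
    exact h2
  have hfin := hM₀ M G hMpos hGs hGp hineq
  have := le_max_left M₀ 1
  linarith

end Pool.Agent.Helper15.AB
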