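import Pool.Agent.Helper15.AB.GoalsE

/-! # Project AB, module GEO: assembly -/

open MeasureTheory Set Filter Topology
open scoped ContDiff

noncomputable section

namespace Pool.Agent.Helper15.AB

open Pool.Agent.Helper24.AB

theorem lh0_of (hPRF : S_PRF) (hLF : S_LF) (hTALG : S_TALG) : S_LH0 := by
  intro a A s hs α α' l hne w hw
  obtain ⟨hk, -, hP⟩ := hPRF
  have hw' : |w.re| < a := hw
  have hwI : w.re ∈ Ioo (-a) a := abs_lt.1 hw'
  obtain ⟨hF, -, hlap⟩ := hLF a A s hs α α' l hne w hw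
  obtain ⟨h1, h2⟩ := hP a A s hs w.re hwI
  have hT := hTALG a A kap w.re (s w.re) (deriv s w.re) (deriv (deriv s) w.re) (uf α w.im)
    (vf α' w.im) l hs.a_pos hs.A_pos hk hw' (hs.pos _ hwI) hF h1 h2
  change _ + 4 * kap ^ 2 * A * max (uf α w.im) 0 *
    (Ff a A s α α' l w * Real.sqrt (Ff a A s α α' l w)) ≤ _ at hT
  rw [hlap]
  set F := Ff a A s α α' l w with hFdef
  set T := Tex a A kap w.re (s w.re) (deriv s w.re) (deriv (deriv s) w.re) (uf α w.im)
    (vf α' w.im) l with hTdef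
  have hsq : 0 < Real.sqrt F := Real.sqrt_pos.2 hF
  have hden : 0 < 4 * F * Real.sqrt F := by positivity
  have hmax : max (-(uf α w.im)) 0 = max (uf α w.im) 0 - uf α w.im := by
    rcases le_total (uf α w.im) 0 with h | h
    · rw [max_eq_right h, max_eq_left (by linarith)]; ring
    · rw [max_eq_left h, max_eq_right (by linarith)]; ring
  rw [hmax]
  have key : (4 * s w.re ^ 3 * kone A s w.re * uf α w.im ^ 4 +
        18 / 5 * A ^ 4 * uf α w.im ^ 2 * gf α' l w.im + 48 * A ^ 4 * a ^ 2 * gf α' l w.im ^ 2) /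
        (4 * F * Real.sqrt F) ≤
      (-T - 4 * kap ^ 2 * A * max (uf α w.im) 0 * (F * Real.sqrt F)) / (4 * F * Real.sqrt F) := by
    apply div_le_div_of_nonneg_right _ hden.le
    have h3 : kone A s w.re = -(deriv (deriv s) w.re + kap ^ 2 * s w.re + kap ^ 2 * A) := rfl
    have h4 : gf α' l w.im = vf α' w.im ^ 2 + l ^ 2 := rfl
    rw [h3, h4]
    linarith
  have h5 : (-T - 4 * kap ^ 2 * A * max (uf α w.im) 0 * (F * Real.sqrt F)) /
      (4 * F * Real.sqrt F) = -(T / (4 * F * Real.sqrt F)) - kap ^ 2 * A * max (uf α w.im) 0 := by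
    field_simp
  rw [h5] at key
  linarith

theorem geo_of (hRSM : S_RSM) (hINV : S_INV) (hLEV1 : S_LEV1) (hLEV0 : S_LEV0) : S_GEO := by
  intro a A δ₀ ρ₀ s p B hs hp hδ
  have hp1 : ContDiffOn ℝ ∞ p (strip (3 * a / 2)) := hp.smooth
  obtain ⟨h1, h2, h3⟩ := hRSM a A s p hs hp1
  refine ⟨h1, h2, ?_, h3, hINV a A s p hp.p1⟩
  intro P hP hr ξ hξ hξ'
  rcases lt_or_ge (|(P 3).re|) a with h | h
  · exact hLEV1 a A δ₀ ρ₀ s p B hs hp hδ P h hr ξ hξ hξ'
  · exact hLEV0 a A s p hs hp1 P h hP hr ξ hξ hξ'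

end Pool.Agent.Helper15.AB
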