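import Pool.Agent.Helper15.AB.GoalsP

/-! # Project AB, module POT: assembly -/

open MeasureTheory Set Filter Topology
open scoped ContDiff

noncomputable section

namespace Pool.Agent.Helper15.AB

open Pool.Agent.Helper24.AB

theorem pot_of (hNRX : S_NRX) (hBLK : S_BLK) (hSUM : S_SUM) (hPAR : S_PAR) (hHOL : S_HOL)
    (hCAP : S_CAP) : S_POT := by
  intro a δ₀ ρ₀ ha ha' hδ hρ
  obtain ⟨B0, r, R, hB⟩ := hPAR a ρ₀ ha ha' hρ
  obtain ⟨hc1, hc2, hc3, hc4⟩ := hHOL a ρ₀ B0 r R ha ha' hB
  have hr1 : ∀ j, r j ≤ 1 := by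
    intro j
    have h1 := hB.r_lt j
    have h2 := hB.R_lt j
    have h3 := hB.rho_le' j
    linarith
  set P : ℕ → ℂ → ℝ := fun j => Pb (ctrs B0 j) (r j) with hP
  have hBj := fun j => hBLK (ctrs B0 j) (r j) (hB.r_pos j) (hr1 j)
    (fun x hx => lt_of_lt_of_le (hc1 j x hx).1 ha')
  obtain ⟨δ, hδp, hsum⟩ := hSUM P (fun j => (hBj j).1) (fun j => (hBj j).2.1)
    (fun j => (hBj j).2.2.1) δ₀ hδ
  choose ε hε1 hε2 hε3 using fun j => hNRX (δ j) (hδp j)
  obtain ⟨hs1, hs2, hs3, hs4⟩ := hsum ε (fun j => ⟨hε1 j, (hε2 j).le⟩)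
  set p : ℂ → ℝ := fun w => ∑' j, ε j * P j w with hp
  have hstrip : ∀ w, w ∈ strip (3 * a / 2) → w ∈ strip (3 / 4) := by
    intro w hw
    have h1 : |w.re| < 3 * a / 2 := hw
    show |w.re| < 3 / 4
    linarith
  have hstrip' : ∀ w, w ∈ strip a → w ∈ strip (3 / 4) := by
    intro w hw
    have h1 : |w.re| < a := hw
    show |w.re| < 3 / 4
    linarith
  -- vanishing of the Laplacian off the holes
  have hvan : ∀ w ∈ strip (3 * a / 2), (∀ j, ∀ x ∈ ctrs B0 j, ∀ k : ℤ, r j ≤ ‖w - x - k * tpi‖) →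
      lapC p w = 0 := by
    intro w hw h
    rw [(hs4 w).2]
    have : ∀ j, ε j * lapC (P j) w = 0 := fun j => by
      rw [(hBj j).2.2.2.2.1 w (hstrip w hw) (h j), mul_zero]
    simp [this]
  set B : BlockData := { B0 with eps := ε } with hBdef
  refine ⟨p, B, ?_⟩
  have hrq : ∀ j, r j ≤ B0.rho j / 4 := by
    intro j
    have h1 := hB.r_lt j
    have h2 := hB.R_lt j
    have h3 := hB.rho_pos j
    linarith
  have hoff : ∀ j i i', i < B0.Ns j → i' < B0.Nt j → ∀ w, B0.rho j / 4 ≤ ‖w - B0.ctr j i i'‖ →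
      ‖w - B0.ctr j i i'‖ ≤ B0.rho j / 2 → lapC p w = 0 := by
    intro j i i' hi hi' w h1 h2
    have hx := hc3 j i i' hi hi'
    obtain ⟨h3, h4, h5, h6⟩ := hc4 j _ hx w h2
    have h3' : w ∈ strip (3 * a / 2) := by
      have : |w.re| < a := h3
      show |w.re| < 3 * a / 2
      linarith
    apply hvan w h3'
    intro j' x' hx' k
    have hrj' := hrq j'
    have hpos := hB.rho_pos j'
    by_cases hj : j' = j
    · subst hj
      by_cases hxx : x' = B0.ctr j' i i'
      · subst hxx
        by_cases hk : k = 0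
        · subst hk
          simp only [Int.cast_zero, zero_mul, sub_zero]
          linarith
        · have := h6 k hk
          linarith
      · have := h4 x' hx' hxx k
        linarith
    · have := h5 j' hj x' hx' k
      linarith
  refine
    { smooth := hs1.contDiffOn
      p1 := fun w => hs2 w
      p2 := ?_
      p3 := ?_
      p4 := hCAP a ρ₀ B0 r R ha ha' hB p hvan
      tau_pos := fun j => lt_of_lt_of_le one_pos (hc2 j).1
      b_pos := hB.b_pos
      tau_b := ?_
      rho_pos := hB.rho_pos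
      rho_le := hB.rho_le
      ratio := hB.ratio
      a2_ge := hB.a2_ge
      a2_lt := hB.a2_lt
      tile_s := hB.tile_s
      tile_t := hB.tile_t
      eps_pos := hε1
      eps_NR := hε3
      off := hoff
      flux := ?_ }
  · intro w hw
    rw [(hs4 w).2]
    exact tsum_nonneg fun j => mul_nonneg (hε1 j).le ((hBj j).2.2.2.1 w (hstrip w hw))
  · intro w _
    obtain ⟨h1, h2, h3⟩ := hs3 w
    exact ⟨h1, h2, (le_abs_self _).trans h3⟩
  · intro j
    have h1 : B0.tau j + B0.b j < 2 := (hc2 j).2.2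
    have h2 := Real.pi_gt_three
    show B0.tau j + B0.b j < 2 * Real.pi
    linarith
  · intro j i i' hi hi'
    have hx := hc3 j i i' hi hi'
    have hρp := hB.rho_pos j
    have hρ1 := hB.rho_le' j
    show (∫ w in Metric.ball (B0.ctr j i i') (B0.rho j / 4), lapC p w) = 2 * Real.pi * ε j
    have hball : ∀ w ∈ Metric.ball (B0.ctr j i i') (B0.rho j / 4),
        ‖w - B0.ctr j i i'‖ ≤ B0.rho j / 2 := by
      intro w hw
      rw [Metric.mem_ball, dist_eq_norm] at hw
      linarith
    have h1 : ∫ w in Metric.ball (B0.ctr j i i') (B0.rho j / 4), lapC p w =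
        ∫ w in Metric.ball (B0.ctr j i i') (B0.rho j / 4), ε j * lapC (P j) w := by
      refine setIntegral_congr_fun Metric.isOpen_ball.measurableSet ?_
      intro w hw
      obtain ⟨h3, h4, h5, h6⟩ := hc4 j _ hx w (hball w hw)
      show lapC p w = ε j * lapC (P j) w
      rw [(hs4 w).2]
      apply tsum_eq_single j
      intro j' hj'
      rw [(hBj j').2.2.2.2.1 w (hstrip' w h3) ?_, mul_zero]
      intro x' hx' k
      have := h5 j' hj' x' hx' k
      have h7 := hrq j'
      have h8 := hB.rho_pos j'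
      linarith
    rw [h1, integral_const_mul]
    rw [(hBj j).2.2.2.2.2 _ hx (B0.rho j / 4) (hrq j) (by linarith) ?_ ?_]
    · ring
    · intro w hw
      exact hstrip' w (hc4 j _ hx w (hball w hw)).1
    · intro x' hx' hne w hw k
      have := (hc4 j _ hx w (hball w hw)).2.1 x' hx' hne k
      have h7 := hrq j
      linarith

end Pool.Agent.Helper15.AB
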