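import Pool.Agent.Helper15.AB.GoalsT

/-! # Project AB, module TR: assembly -/

open MeasureTheory Set Filter Topology
open scoped ContDiff

noncomputable section

namespace Pool.Agent.Helper15.AB

open Pool.Agent.Helper24.AB

theorem kap_pos : 0 < kap := by
  unfold kap lam
  apply div_pos _ (by positivity)
  apply Real.log_pos
  have : (0:ℝ) ≤ Real.sqrt 5 := Real.sqrt_nonneg 5
  linarith

theorem tr1_of (hTUBE : S_TUBE) (hBND : S_BND) (hLVI : S_LVI) : S_GEO → S_TR1 := by
  intro hG η a A δ₀ ρ₀ Θ s p B hΘ hs hp hδ ha hA _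
  have h1 := hBND η a A δ₀ ρ₀ s p B hs hp ha hA
  exact ⟨h1, hLVI η a _ _ Θ (hTUBE hG η a A δ₀ ρ₀ s p B hs hp hδ h1) hΘ⟩

theorem tr2_of (hTUBE : S_TUBE) (hIMG : S_IMG) (hFHAT : S_FHAT)
    (hGDN : S_GDN) (hCOV : S_COV) : S_GEO → S_TR2 := by
  intro hG hB η a A Θ s hΘ hs
  obtain ⟨δ₁, ρ₀, hδ₁, hρ₀, hreg⟩ := hB a A s hs
  have hkap := kap_pos
  have hA := hs.A_pos
  refine ⟨min δ₁ (kap ^ 2 * A / 4), ρ₀, by positivity, hρ₀, ?_⟩
  intro δ₀ p B hδ hp hsub
  have hT := hTUBE hG η a A δ₀ ρ₀ s p B hs hp (hδ.trans (min_le_right _ _)) hsub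
  set W := Omt a A s p with hW
  set r := rfun a A s p with hr
  obtain ⟨hO1, hO, hconn, hbd, hcl, hpW, hpcl⟩ := hIMG η a r W Θ hT hΘ
  obtain ⟨hdinv, hdhol, hfh⟩ := hFHAT η a r W Θ hT hΘ
  intro f hf
  obtain ⟨hf1, hf2⟩ := hfh f hf
  obtain ⟨g', hg1, hg2, hg3, hg4⟩ := hreg δ₀ p B (hδ.trans (min_le_left _ _)) hp _ hf1 hf2
  obtain ⟨g, hgs, hgh, hgg⟩ := hGDN η a r W Θ hT hΘ g' hg1 hg2 hg3
  refine ⟨g, hgs, ⟨hgh, ?_⟩, ?_⟩
  · -- `g` is square integrable
    have hcomp : IsCompact (closure (Θ '' W)) :=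
      Metric.isCompact_of_isClosed_isBounded isClosed_closure hbd.closure
    have h1 : ContinuousOn (fun z => ‖g z‖ ^ 2) (closure (Θ '' W)) :=
      (hgs.continuousOn.norm).pow 2
    exact (h1.integrableOn_compact hcomp).mono_set subset_closure
  · intro h hh
    -- the lift of `h`
    set hh' : V4 → ℂ := fun P => h (Θ P) * (fderiv ℂ Θ P).det with hh'def
    have hWU : W ⊆ Unb η := subset_closure.trans hT.sub
    have hmaps : MapsTo Θ W (Θ '' W) := mapsTo_image _ _
    have hhol : DifferentiableOn ℂ hh' W :=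
      (hh.1.comp (hΘ.holo.mono hWU) hmaps).mul (hdhol.mono hWU)
    have hinv : GamInv W hh' := by
      intro P hP
      have h1 := hΘ.inv_g P (hWU hP)
      have h2 := hΘ.inv_t P (hWU hP)
      have h3 := hdinv P (hWU hP)
      refine ⟨?_, fun k => ?_⟩
      · have h4 : (fderiv ℂ Θ (gE P)).det = (fderiv ℂ Θ P).det := h3.1
        simp only [hh'def]
        rw [h1, h4]
      · have h4 : (fderiv ℂ Θ (tE k P)).det = (fderiv ℂ Θ P).det := h3.2 k
        simp only [hh'def]
        rw [h2 k, h4]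
    have hFund : Fund a A s p = W ∩ Box := rfl
    have hint : IntegrableOn (fun P => ‖hh' P‖ ^ 2) (Fund a A s p) := by
      rw [hFund]
      have h1 := (hCOV η a r W Θ hT hΘ (fun z => ‖h z‖ ^ 2)).1.1 hh.2
      refine h1.congr_fun_ae ?_
      filter_upwards with P
      simp only [hh'def, smul_eq_mul, norm_mul, mul_pow]
      ring
    have h0 := hg4 hh' hhol hinv hint
    rw [hFund] at h0
    rw [(hCOV η a r W Θ hT hΘ (fun z => (f z - g z) * (starRingEnd ℂ) (h z))).2, ← h0]
    have hmeas : MeasurableSet (W ∩ Box) := by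
      apply MeasurableSet.inter
      · rw [hT.eqW]
        have hopen : IsOpen {P : V4 | |(P 3).re| < 3 * a / 2} :=
          isOpen_lt (by fun_prop) continuous_const
        have h2 := hT.smooth.continuousOn.isOpen_inter_preimage hopen (isOpen_Iio (a := (0:ℝ)))
        exact h2.measurableSet
      · have : Box = ⋂ i, {P : V4 | 0 ≤ (P i).im ∧ (P i).im < 2 * Real.pi} := by
          ext P; simp [Box]
        rw [this]
        refine MeasurableSet.iInter fun i => ?_
        have hm : Measurable (fun P : V4 => (P i).im) := by fun_prop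
        exact (measurableSet_le measurable_const hm).inter (measurableSet_lt hm measurable_const)
    refine setIntegral_congr_fun hmeas ?_
    intro P hP
    have hPc : P ∈ closure W := subset_closure hP.1
    simp only [hh'def]
    rw [← hgg P hPc, map_mul, Complex.real_smul]
    have h5 : ((‖(fderiv ℂ Θ P).det‖ ^ 2 : ℝ) : ℂ) =
        (fderiv ℂ Θ P).det * (starRingEnd ℂ) (fderiv ℂ Θ P).det := by
      rw [Complex.mul_conj, Complex.normSq_eq_norm_sq]
    rw [h5]
    ring

end Pool.Agent.Helper15.AB
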