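import Pool.Agent.Helper15.AB.AsmT
import Pool.Agent.Helper15.AB.AsmD
import Pool.Agent.Helper11.AB.HCJ
import Pool.Agent.Helper11.AB.TUBE
import Pool.Agent.Helper19.AB.FND
import Pool.Agent.Helper31.AB.LAPC
import Pool.Agent.Helper34.AB.DETR
import Pool.Agent.Helper46.AB.AVB
import Pool.Agent.Helper46.AB.NEQ
import Pool.Agent.Helper5.AB.SMV
import Pool.Agent.Helper55.AB.LEVC
import Pool.Agent.Helper57.AB.DATA
import Pool.Agent.Helper57.AB.DFN
import Pool.Agent.Helper57.AB.FHAT
import Pool.Agent.Helper57.AB.GDN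
import Pool.Agent.Helper57.AB.GRL
import Pool.Agent.Helper57.AB.LINV
import Pool.Agent.Helper57.AB.NSM
import Pool.Agent.Helper57.AB.PER
import Pool.Agent.Helper58.AB.IMG
import Pool.Agent.Helper59.AB.AFF
import Pool.Agent.Helper59.AB.LVI
import Pool.Agent.Helper60.AB.INVF
import Pool.Agent.Helper64.AB.UNB
import Pool.Agent.Helper7.AB.BND
import Pool.Agent.Helper71.AB.FIN
import Pool.Agent.Helper71.AB.IBP
import Pool.Agent.Helper71.AB.OPT
import Pool.Agent.Helper75.AB.PARI
import Pool.Agent.Helper8.AB.CLW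
import Pool.Agent.Helper80.AB.AVC
import Pool.Agent.Helper80.AB.TOPX
import Pool.Agent.Helper89.AB.PSHL
import Pool.Agent.Helper9.AB.COV
import Pool.Agent.Helper90.AB.GRD
import Pool.Agent.Helper93.AB.TAYL
import Pool.Agent.Helper98.AB.LIMU
import Pool.Agent.Helper98.AB.MVI
import Pool.Agent.Helper98.AB.SUPM
import Pool.Agent.Helper99.AB.AVT

/-! # Project AB: the modules TR and DF, all packets put together -/

open Pool.Agent.Helper24.AB

namespace Pool.Agent.Helper15.AB

theorem unb' : S_UNB := Pool.Agent.Helper64.AB.unb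
theorem grl' : S_GRL := Pool.Agent.Helper57.AB.grl
theorem aff' : S_AFF := Pool.Agent.Helper59.AB.aff
theorem fnd' : S_FND := Pool.Agent.Helper19.AB.fnd
theorem invf' : S_INVF := Pool.Agent.Helper60.AB.invf
theorem clw' : S_CLW := Pool.Agent.Helper8.AB.clw aff' grl' invf'
theorem linv' : S_LINV := Pool.Agent.Helper57.AB.linv unb'
theorem img' : S_IMG := Pool.Agent.Helper58.AB.img grl' fnd' invf' unb' clw' linv'
theorem levc' : S_LEVC := Pool.Agent.Helper55.AB.levc
theorem dfn' : S_DFN := Pool.Agent.Helper57.AB.dfn unb' clw' img'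
theorem lvi' : S_LVI := Pool.Agent.Helper59.AB.lvi levc' img' dfn' clw' unb'
theorem fhat' : S_FHAT := Pool.Agent.Helper57.AB.fhat aff' grl' unb' img'
theorem gdn' : S_GDN := Pool.Agent.Helper57.AB.gdn aff' grl' invf' unb' clw' img'
theorem cov' : S_COV := Pool.Agent.Helper9.AB.cov Pool.Agent.Helper34.AB.detr grl' fnd' invf' clw'
theorem tube' : S_TUBE := Pool.Agent.Helper11.AB.tube

/-- The module TR, first part. -/
theorem tr1 : S_GEO → S_TR1 := tr1_of tube' Pool.Agent.Helper7.AB.bnd lvi'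

/-- The module TR, second part. -/
theorem tr2 : S_GEO → S_TR2 := tr2_of tube' img' fhat' gdn' cov'

theorem tayl' : S_TAYL := tayl
theorem lapc' : S_LAPC := Pool.Agent.Helper31.AB.lapc
theorem pshl' : S_PSHL := Pool.Agent.Helper89.AB.pshl tayl' lapc'
theorem avb' : S_AVB := Pool.Agent.Helper46.AB.avb
theorem avt' : S_AVT := Pool.Agent.Helper99.AB.avt
theorem avc' : S_AVC := Pool.Agent.Helper80.AB.avc
theorem per' : S_PER := Pool.Agent.Helper57.AB.per
theorem topx' : S_TOPX := Pool.Agent.Helper80.AB.topx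
theorem data' : S_DATA :=
  Pool.Agent.Helper57.AB.data grl' unb' clw' img' levc' pshl' Pool.Agent.Helper90.AB.grd topx'
theorem nsm' : S_NSM := Pool.Agent.Helper57.AB.nsm Pool.Agent.Helper75.AB.pari avb'
theorem neq' : S_NEQ := Pool.Agent.Helper46.AB.neq per' avt' avb'
theorem limu' : S_LIMU := Pool.Agent.Helper98.AB.limu per' avb'
theorem supm' : S_SUPM :=
  Pool.Agent.Helper98.AB.supm lapc' Pool.Agent.Helper5.AB.smv avb' avc' avt' per'
theorem mvi' : S_MVI :=
  Pool.Agent.Helper98.AB.mvi nsm' limu' supm' Pool.Agent.Helper11.AB.hcj tayl' avc'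
theorem fin' : S_FIN := Pool.Agent.Helper71.AB.fin Pool.Agent.Helper71.AB.ibp

/-- The module DF: failure of (DF1). -/
theorem df : S_GEO → S_DF :=
  df_of tube' topx' data' nsm' neq' mvi' Pool.Agent.Helper71.AB.opt fin'

end Pool.Agent.Helper15.AB
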