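import Pool.Agent.Helper15.AB.AsmE
import Pool.Agent.Helper15.AB.FinTD
import Pool.Agent.Helper58.AB.ATL
import Pool.Agent.Helper98.AB.XI
import Pool.Agent.Helper98.AB.PRF
import Pool.Agent.Helper98.AB.LF
import Pool.Agent.Helper98.AB.LEV1
import Pool.Agent.Helper70.AB.RSM
import Pool.Agent.Helper9.AB.INV
import Pool.Agent.Helper71.AB.TALG
import Pool.Agent.Helper8.AB.LVW
import Pool.Agent.Helper39.AB.BARL
import Pool.Agent.Helper56.AB.SUPH
import Pool.Agent.Helper42.AB.LEV0

/-! # Project AB (MP_1ef41b_an): module GEO complete, and TR, DF without hypotheses -/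

noncomputable section

namespace Pool.Agent.Helper15.AB

open Pool.Agent.Helper24.AB

theorem atl'' : S_ATL := Pool.Agent.Helper58.AB.atl
theorem xi'' : S_XI := Pool.Agent.Helper98.AB.xi atl''
theorem rsm'' : S_RSM := Pool.Agent.Helper70.AB.rsm atl'' xi''
theorem inv'' : S_INV := Pool.Agent.Helper9.AB.inv
theorem prf'' : S_PRF := Pool.Agent.Helper98.AB.prf
theorem lf'' : S_LF := Pool.Agent.Helper98.AB.lf
theorem lvw'' : S_LVW := Pool.Agent.Helper8.AB.lvw
theorem barl'' : S_BARL := Pool.Agent.Helper39.AB.barl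
theorem suph'' : S_SUPH := Pool.Agent.Helper56.AB.suph atl''

/-- (Interface GEO to PHI) -/
theorem lh0 : S_LH0 := lh0_of prf'' lf'' Pool.Agent.Helper71.AB.TALG.talg

theorem lev1'' : S_LEV1 := Pool.Agent.Helper98.AB.lev1 atl'' rsm'' lvw'' barl'' suph'' lf'' lh0
theorem lev0'' : S_LEV0 := Pool.Agent.Helper42.AB.lev0 atl'' rsm''

/-- (GEO) -/
theorem geo : S_GEO := geo_of rsm'' inv'' lev1'' lev0''

theorem tr1_geo : S_TR1 := tr1 geo
theorem tr2_geo : S_TR2 := tr2 geo
theorem df_geo : S_DF := df geo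

end Pool.Agent.Helper15.AB
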