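import Pool.Agent.Helper15.AB.GoalsT

/-! # Project AB (MP_1ef41b_an), module DF: failure of (DF1) (definitions and goals)

`ee` is the exponent `η` of `-(-ρ)^η`.  Complete proofs are given in the docstrings.  Earlier goals (also
those of GoalsG.lean and GoalsT.lean) may be assumed as hypotheses. -/

open MeasureTheory Set Filter Topology
open scoped ContDiff

noncomputable section

namespace Pool.Agent.Helper15.AB

open Pool.Agent.Helper24.AB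

/-- the vector `e₊ = (φ, 1, 0; 0)` -/
def eP : V4 := ![(ph : ℂ), 1, 0, 0]

/-- the point `(z e₊ + i(x,y,u), w)`; `xp = Re z`, `xm = x0 = 0`. -/
def zP (z : ℂ) (x y u : ℝ) (w : ℂ) : V4 :=
  ![ph * z + Complex.I * x, z + Complex.I * y, Complex.I * u, w]

/-- the top of the slice: `q = 2A e^{κt} cos(κσ) - p` -/
def qf (A : ℝ) (p : ℂ → ℝ) (w : ℂ) : ℝ :=
  2 * A * (Real.exp (kap * w.im) * Real.cos (kap * w.re)) - p w

/-- the length of the slice: `2 s(σ) e^{κt}` -/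
def mf (s : ℝ → ℝ) (w : ℂ) : ℝ := 2 * s w.re * Real.exp (kap * w.im)

/-- the average over the torus `(ℝ/2πℤ)³` -/
def av (F : ℝ → ℝ → ℝ → ℝ) : ℝ :=
  ((2 * Real.pi)⁻¹) ^ 3 * ∫ x in (0 : ℝ)..(2 * Real.pi), ∫ y in (0 : ℝ)..(2 * Real.pi),
    ∫ u in (0 : ℝ)..(2 * Real.pi), F x y u

/-- joint continuity in the three variables -/
def Cont3 (F : ℝ → ℝ → ℝ → ℝ) : Prop := Continuous fun v : ℝ × ℝ × ℝ => F v.1 v.2.1 v.2.2

/-- `2π`-periodic in the three variables -/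
def Per3 (F : ℝ → ℝ → ℝ → ℝ) : Prop := ∀ x y u, F (x + 2 * Real.pi) y u = F x y u ∧
  F x (y + 2 * Real.pi) u = F x y u ∧ F x y (u + 2 * Real.pi) = F x y u

/-! ## Averages -/

/-- AVB.  Elementary properties of averages. -/
def S_AVB : Prop := (∀ c : ℝ, av (fun _ _ _ => c) = c) ∧
  (∀ (F : ℝ → ℝ → ℝ → ℝ) (c : ℝ), av (fun x y u => c * F x y u) = c * av F) ∧
  (∀ F G, Cont3 F → Cont3 G → (∀ x y u, F x y u ≤ G x y u) → av F ≤ av G) ∧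
  (∀ F, Cont3 F → (∀ x y u, 0 < F x y u) → 0 < av F) ∧
  (∀ F G ε, Cont3 F → Cont3 G → (∀ x y u, |F x y u - G x y u| ≤ ε) → |av F - av G| ≤ ε)

/-- AVT.  Invariance of the average under translations and under `(x,y,u) ↦ (2x+y, x+y, u)`.
For the second: `∫∫ f(2x+y, x+y) dy dx = ∫∫ g_x(x+y) dy dx` with `g_x(b) = f(x+b, b)`, periodic in `b`, so it is
`∫∫ f(x+b, b) db dx = ∫∫ f(x+b, b) dx db` (Fubini) `= ∫∫ f(a,b) da db`. -/
def S_AVT : Prop := ∀ F, Cont3 F → Per3 F →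
  (∀ c d e : ℝ, av (fun x y u => F (x + c) (y + d) (u + e)) = av F) ∧
  av (fun x y u => F (2 * x + y) (x + y) u) = av F

/-- AVC.  Averages commute with circle averages (Fubini for continuous functions). -/
def S_AVC : Prop := ∀ (F : ℂ → ℝ → ℝ → ℝ → ℝ) (c : ℂ) (r : ℝ), 0 ≤ r →
  ContinuousOn (fun v : ℂ × ℝ × ℝ × ℝ => F v.1 v.2.1 v.2.2.1 v.2.2.2)
    (Metric.closedBall c r ×ˢ univ) →
  Cont3 (fun x y u => Real.circleAverage (fun w => F w x y u) c r) ∧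
  ContinuousOn (fun w => av (F w)) (Metric.closedBall c r) ∧
  av (fun x y u => Real.circleAverage (fun w => F w x y u) c r) =
    Real.circleAverage (fun w => av (F w)) c r

/-! ## The data `R = ρ ∘ Θ` near the top -/

/-- The facts on `R = ρ ∘ Θ` which are used. -/
structure IsDat (ee a : ℝ) (q m : ℂ → ℝ) (W U : Set V4) (R : V4 → ℝ) : Prop where
  ee_pos : 0 < ee
  ee_lt : ee < 1
  a_pos : 0 < a
  openW : IsOpen W
  openU : IsOpen U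
  sub : closure W ⊆ U
  mapU : ∀ P ∈ U, gE P ∈ U ∧ ∀ k, tE k P ∈ U
  R_g : ∀ P ∈ U, R (gE P) = R P
  R_t : ∀ P ∈ U, ∀ k, R (tE k P) = R P
  smooth : ContDiffOn ℝ ∞ R U
  neg : ∀ P ∈ W, R P < 0
  psh : ∀ P ∈ W, ∀ ξ, 0 ≤ leviForm (fun P => -((-R P) ^ ee)) P ξ
  q_smooth : ContDiffOn ℝ ∞ q (strip (a / 2))
  q_per : ∀ w ∈ strip (a / 2), q (w + 2 * Real.pi * Complex.I) = lam * q w
  m_pos : ∀ w ∈ strip (a / 2), 0 < m w
  m_cont : ContinuousOn m (strip (a / 2))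
  inner : ∀ w ∈ strip (a / 2), ∀ (z : ℂ) (x y u : ℝ), q w - m w < z.re → z.re < q w →
    zP z x y u w ∈ W
  topU : ∀ w ∈ strip (a / 2), ∀ (z : ℂ) (x y u : ℝ), z.re = q w → zP z x y u w ∈ U
  top0 : ∀ w ∈ strip (a / 2), ∀ (z : ℂ) (x y u : ℝ), z.re = q w → R (zP z x y u w) = 0
  top1 : ∀ w ∈ strip (a / 2), ∀ (z : ℂ) (x y u : ℝ), z.re = q w →
    0 < fderiv ℝ R (zP z x y u w) eP

/-- TOPX.  The explicit formulas: for `w ∈ strip (a/2)` one has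
`rfun (zP z x y u w) = (a²-σ²)(((e^{-κt}(Re z + p w) - A)/s(σ))² - 1)` and `A + s(σ) = 2A cos(κσ)`;
`zP z x y u w + τ e₊ = zP (z+τ) x y u w`; at the top the derivative in the direction `e₊` is
`2(a²-σ²)e^{-κt}/s(σ)`; `e^{κt}cos(κσ)` is harmonic, `lam = exp (2π kap)`. -/
def S_TOPX : Prop := ∀ (η a A δ₀ ρ₀ : ℝ) (s : ℝ → ℝ) (p : ℂ → ℝ) (B : BlockData),
  IsProfile a A s → IsPotential a δ₀ ρ₀ p B → IsTube η a (rfun a A s p) (Omt a A s p) →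
  (∀ w ∈ strip (a / 2), ∀ (z : ℂ) (x y u : ℝ), qf A p w - mf s w < z.re → z.re < qf A p w →
    zP z x y u w ∈ Omt a A s p) ∧
  (∀ w ∈ strip (a / 2), ∀ (z : ℂ) (x y u : ℝ), z.re = qf A p w →
    rfun a A s p (zP z x y u w) = 0 ∧ 0 < fderiv ℝ (rfun a A s p) (zP z x y u w) eP) ∧
  (∀ w ∈ strip (a / 2), qf A p (w + 2 * Real.pi * Complex.I) = lam * qf A p w) ∧
  ContDiffOn ℝ ∞ (qf A p) (strip (a / 2)) ∧ (∀ w ∈ strip (a / 2), 0 < mf s w) ∧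
  ContinuousOn (mf s) (strip (a / 2)) ∧ ∀ w ∈ strip (a / 2), lapC (qf A p) w = -lapC p w

/-- DATA.  A defining function `ρ` of `Θ '' Ω̃` with `-(-ρ)^ee` psh gives the data, with
`U = {P ∈ U_η | Θ P ∈ U_ρ}`.  `psh`: S_PSHL on `Θ '' W` (there `ρ < 0`, so `-(-ρ)^ee` is smooth) and
S_LEVC.  `top0`: the top is in the closure of `W` (limits of inner points) but not in `W`, so `Θ` of it is in
the frontier of `Θ '' W`, and `ρ = 0` on the frontier (`ρ ≤ 0` by continuity, `ρ < 0` would give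
`Θ P ∈ Θ '' W`).  `top1`: S_GRD at the point with `r = rfun` (`fderiv ℝ R P ≠ 0` because `fderiv ℝ ρ ≠ 0` on the
frontier and `Θ' P` is invertible), and `0 < fderiv ℝ rfun (..) eP` from S_TOPX. -/
def S_DATA : Prop := ∀ (η a A δ₀ ρ₀ : ℝ) (Θ : V4 → V4) (s : ℝ → ℝ) (p : ℂ → ℝ) (B : BlockData),
  IsEmb η Θ → IsProfile a A s → IsPotential a δ₀ ρ₀ p B →
  IsTube η a (rfun a A s p) (Omt a A s p) → ∀ (ee : ℝ) (ρ : V4 → ℝ), 0 < ee → ee < 1 →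
  IsDefiningFunction (Θ '' Omt a A s p) ρ → IsPshOn (Θ '' Omt a A s p) (fun z => -((-ρ z) ^ ee)) →
  ∃ U : Set V4, IsDat ee a (qf A p) (mf s) (Omt a A s p) U (fun P => ρ (Θ P))

/-- the limit function `N(w)` = average of `(∂R/∂x₊)^ee` over the top -/
def Nf (ee : ℝ) (q : ℂ → ℝ) (R : V4 → ℝ) (w : ℂ) : ℝ :=
  av fun x y u => (fderiv ℝ R (zP (q w) x y u w) eP) ^ ee

/-- average of `(-R)^ee` over the torus at height `x₀` -/
def Uf (ee : ℝ) (R : V4 → ℝ) (x₀ : ℝ) (w : ℂ) : ℝ :=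
  av fun x y u => (-R (zP x₀ x y u w)) ^ ee

/-- PER.  Behaviour of the points `zP` under `Γ`:
`gE (zP z x y u w) = zP (lam z) (2x+y) (x+y) u (w+2πi)` (`2φ+1 = lam φ`, `φ+1 = lam`),
`tE k (zP z x y u w) = zP z (x+2πk₀) (y+2πk₁) (u+2πk₂) w`,
`zP (x₀ + i y₀) x y u w = zP x₀ (x + φ y₀) (y + y₀) u w`, and the consequences for `R`. -/
def S_PER : Prop := (∀ (z : ℂ) (x y u : ℝ) (w : ℂ), gE (zP z x y u w) =
    zP (lam * z) (2 * x + y) (x + y) u (w + 2 * Real.pi * Complex.I)) ∧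
  (∀ (z : ℂ) (x y u : ℝ) (w : ℂ) (k : Fin 3 → ℤ), tE k (zP z x y u w) =
    zP z (x + 2 * Real.pi * k 0) (y + 2 * Real.pi * k 1) (u + 2 * Real.pi * k 2) w) ∧
  (∀ (z : ℂ) (x y u : ℝ) (w : ℂ), zP z x y u w = zP (z.re : ℂ) (x + ph * z.im) (y + z.im) u w) ∧
  (∀ (z : ℂ) (x y u : ℝ) (w : ℂ) (τ : ℝ), zP z x y u w + τ • eP = zP (z + τ) x y u w)

/-- NSM.  `N` is smooth and positive (S_PARI three times; `(w,x,y,u) ↦ (D R (zP (q w) x y u w) e₊)^ee` is smooth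
and positive on `strip (a/2) × ℝ³`). -/
def S_NSM : Prop := ∀ (ee a : ℝ) (q m : ℂ → ℝ) (W U : Set V4) (R : V4 → ℝ), IsDat ee a q m W U R →
  ContDiffOn ℝ ∞ (Nf ee q R) (strip (a / 2)) ∧ ∀ w ∈ strip (a / 2), 0 < Nf ee q R w

/-- NEQ.  `N(w+2πi) = lam^{-ee} N(w)`: differentiating `R (gE P) = R P` (near the top) in the direction `e₊`,
`gE` is affine with linear part mapping `e₊` to `lam e₊`; S_PER, S_AVT. -/
def S_NEQ : Prop := ∀ (ee a : ℝ) (q m : ℂ → ℝ) (W U : Set V4) (R : V4 → ℝ), IsDat ee a q m W U R →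
  ∀ w ∈ strip (a / 2), Nf ee q R (w + 2 * Real.pi * Complex.I) = lam ^ (-ee) * Nf ee q R w

/-- LIMU.  `Uf(q(w) - τ, w) = τ^ee (N(w) + o(1))` uniformly on compact sets, `τ → 0+`.
Proof.  For `w ∈ K`, `(x,y,u) ∈ [0,2π]³` and small `τ` (compactness: the points
`zP (q w - ξ) x y u w`, `0 ≤ ξ ≤ τ₀`, form a compact subset of `U` for small `τ₀`, and are in `W` for `ξ > 0`) the mean
value theorem gives `-R (zP (q w - τ) ..) = τ D R(zP (q w - ξ) ..) e₊` for some `ξ ∈ (0,τ)`; by uniform continuity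
this is `τ (D R(zP (q w) ..) e₊ + o(1))`, and `|s^ee - t^ee| ≤ |s - t|^ee` for `s,t ≥ 0`.  Outside `[0,2π]³` use the
periodicity (or work with the integrals over `[0,2π]³` directly). -/
def S_LIMU : Prop := ∀ (ee a : ℝ) (q m : ℂ → ℝ) (W U : Set V4) (R : V4 → ℝ), IsDat ee a q m W U R →
  ∀ K ⊆ strip (a / 2), IsCompact K → ∀ ε : ℝ, 0 < ε → ∃ τ₁ : ℝ, 0 < τ₁ ∧ ∀ τ : ℝ, 0 < τ → τ < τ₁ →
    ∀ w ∈ K, |Uf ee R (q w - τ) w - Nf ee q R w * τ ^ ee| ≤ ε * τ ^ ee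

/-- SUPM.  Super-mean value inequality for `Uf` along holomorphic discs.
Proof.  For fixed `x,y,u` the curve `γ w = zP (Z w) x y u w` is holomorphic on the ball and in `W`, so
`f w = -(-R (γ w))^ee` is `C²` with `lapC f ≥ 0` (S_LAPC, `IsDat.psh`), `f w₀ ≤ circleAverage f w₀ r` (S_SMV).  Average over
`x,y,u` (S_AVB, S_AVC) and use `av (fun x y u => (-R (zP (Z w) x y u w))^ee) = Uf ee R (Z w).re w`
(S_PER third part, S_AVT, periodicity of `R`). -/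
def S_SUPM : Prop := ∀ (ee a : ℝ) (q m : ℂ → ℝ) (W U : Set V4) (R : V4 → ℝ), IsDat ee a q m W U R →
  ∀ (w₀ : ℂ) (r r' : ℝ) (Z : ℂ → ℂ), 0 < r → r < r' → Metric.ball w₀ r' ⊆ strip (a / 2) →
    DifferentiableOn ℂ Z (Metric.ball w₀ r') →
    (∀ w ∈ Metric.ball w₀ r', q w - m w < (Z w).re ∧ (Z w).re < q w) →
    Real.circleAverage (fun w => Uf ee R (Z w).re w) w₀ r ≤ Uf ee R (Z w₀).re w₀

/-- HCJ.  A harmonic function on a ball is the real part of a holomorphic function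
(`InnerProductSpace.HarmonicOnNhd.exists_analyticOnNhd_ball_re_eq`; `lapC` is Mathlib's Laplacian). -/
def S_HCJ : Prop := ∀ (q : ℂ → ℝ) (w₀ : ℂ) (r : ℝ), ContDiffOn ℝ ∞ q (Metric.ball w₀ r) →
  (∀ w ∈ Metric.ball w₀ r, lapC q w = 0) → ∃ Q : ℂ → ℂ, DifferentiableOn ℂ Q (Metric.ball w₀ r) ∧
    ∀ w ∈ Metric.ball w₀ r, (Q w).re = q w

/-- MVI.  At a point `w₀` near which `q` is harmonic, `N(w)(1+Re(V(w-w₀)))^ee` has Laplacian `≤ 0`.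
Proof.  Let `r'` be small: `closedBall w₀ r' ⊂ strip (a/2)`, `q` harmonic on the ball, `g w = 1+Re(V(w-w₀)) ∈ [1/2,2]`
there; `Q` from S_HCJ.  For small `τ > 0` the function `Z = Q - τ(1+V(w-w₀))` has `Re Z = q - τg` and satisfies the
hypotheses of S_SUPM.  With S_LIMU (`K = closedBall w₀ r'`, `τg(w)` in place of `τ`), dividing by `τ^ee` and letting
`τ → 0`: `circleAverage (N g^ee) w₀ r ≤ N w₀` for all `0 < r < r'`; S_TAYL gives the claim. -/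
def S_MVI : Prop := ∀ (ee a : ℝ) (q m : ℂ → ℝ) (W U : Set V4) (R : V4 → ℝ), IsDat ee a q m W U R →
  ∀ w₀ ∈ strip (a / 2), (∀ᶠ w in 𝓝 w₀, lapC q w = 0) → ∀ V : ℂ,
    lapC (fun w => Nf ee q R w * (1 + (V * (w - w₀)).re) ^ ee) w₀ ≤ 0

/-- OPT.  Optimisation over `V`.  With `v = (Re V, -Im V) = ∇g`, `g(w₀) = 1`, `Δg = 0`:
`Δ(N g^ee)(w₀) = ΔN + 2 ee ∇N·v - ee(1-ee) N |v|² ≤ 0` for all `v`; `v = ∇N/((1-ee)N)` gives
`ΔN + ee |∇N|²/((1-ee)N) ≤ 0`.  For `G = -ee⁻¹ log N`: `∇G = -ee⁻¹∇N/N`, `ΔG = -ee⁻¹(ΔN/N - |∇N|²/N²)`, hence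
`ΔG ≥ ee⁻¹ (|∇N|²/N²)(1 + ee/(1-ee)) = ee⁻¹|∇N|²/(N²(1-ee)) = (ee/(1-ee))|∇G|²`. -/
def S_OPT : Prop := ∀ (ee : ℝ) (N : ℂ → ℝ) (w₀ : ℂ), 0 < ee → ee < 1 → ContDiffAt ℝ 2 N w₀ →
  0 < N w₀ → (∀ V : ℂ, lapC (fun w => N w * (1 + (V * (w - w₀)).re) ^ ee) w₀ ≤ 0) →
  ee / (1 - ee) * ((dS (fun w => -(ee⁻¹ * Real.log (N w))) w₀) ^ 2 +
    (dT (fun w => -(ee⁻¹ * Real.log (N w))) w₀) ^ 2) ≤
    lapC (fun w => -(ee⁻¹ * Real.log (N w))) w₀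

/-! ## The integrated inequality -/

/-- IBP.  Integration by parts over the cell: `v²ΔG + 2v∇v·∇G = div(v²∇G)`, the vector field is `2πi`-periodic and
vanishes for `|σ| ≥ a1` (`integral2_divergence_prod_of_hasFDerivAt_off_countable` on
`[-a1',a1'] × [0,2π]`, or Fubini and one-dimensional integrals). -/
def S_IBP : Prop := ∀ (a1 a' b c : ℝ) (G v : ℂ → ℝ), a1 < a' → a' ≤ b →
  ContDiffOn ℝ ∞ G (strip a') → (∀ w ∈ strip a', G (w + 2 * Real.pi * Complex.I) = G w + c) →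
  ContDiff ℝ ∞ v → (∀ w, v (w + 2 * Real.pi * Complex.I) = v w) → (∀ w, a1 ≤ |w.re| → v w = 0) →
  ∫ w in cell b, (v w ^ 2 * lapC G w + 2 * v w * (dS v w * dS G w + dT v w * dT G w)) = 0

/-- FIN.  The capacity argument.  With `X_n² = ∫_cell v_n²|∇G|²`, `B = sup of M|∇G|² + |ΔG|` over the compact
`{|σ| ≤ a1, 0 ≤ t ≤ 2π}`: `M X_n² ≤ ∫ v_n² ΔG + B/(n+1) = -2∫v_n∇v_n·∇G + B/(n+1) ≤ 2√C X_n + B/(n+1)` (S_IBP; on
`{v_n ≠ 0} ∖ O_n` of measure `≤ 1/(n+1)` use the bound `B`, `0 ≤ v_n ≤ 1`).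
For `σ ∈ G₀` (the set of (p4)): `log lam = ∫_0^{2π} dT G dt ≤ 2∫_0^{2π} v_n|∇G| dt`, so by Fubini and Cauchy-Schwarz
`(c/2) log lam ≤ ∫_cell v_n|∇G| ≤ X_n (4πa)^{1/2}`, i.e. `X_n ≥ X := c log lam/(2(4πa)^{1/2}) > 0`.  Dividing by `X_n`,
`M X ≤ 2√C + B/((n+1)X)`, `n → ∞`: `M ≤ M₀ := 2√C/X`. -/
def S_FIN : Prop := ∀ (a : ℝ) (p : ℂ → ℝ), 0 < a → IsCapacity a p → ∃ M₀ : ℝ,
  ∀ (M : ℝ) (G : ℂ → ℝ), 0 < M → ContDiffOn ℝ ∞ G (strip (a / 2)) →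
  (∀ w ∈ strip (a / 2), G (w + 2 * Real.pi * Complex.I) = G w + Real.log lam) →
  (∀ O : Set ℂ, IsOpen O → (∀ w ∈ O, w ∈ strip (3 * a / 2) → lapC p w = 0) →
    ∀ w ∈ O, w ∈ strip (a / 2) → M * ((dS G w) ^ 2 + (dT G w) ^ 2) ≤ lapC G w) → M ≤ M₀

end Pool.Agent.Helper15.AB
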