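import Pool.Agent.Helper15.AB.GoalsG

/-! # Project AB (MP_1ef41b_an), module TR: images of tubes under `Θ` (definitions and goals)

Complete proofs are given in the docstrings.  Earlier goals may be assumed as hypotheses. -/

open MeasureTheory Set Filter Topology
open scoped ContDiff

noncomputable section

namespace Pool.Agent.Helper15.AB

open Pool.Agent.Helper24.AB

/-- The box `0 ≤ Im P_i < 2π`. -/
def Box : Set V4 := {P | ∀ i, 0 ≤ (P i).im ∧ (P i).im < 2 * Real.pi}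

/-- A `Γ`-invariant smooth tube `W = {r < 0}` in the cover with closure in `U_η`. -/
structure IsTube (η a : ℝ) (r : V4 → ℝ) (W : Set V4) : Prop where
  a_pos : 0 < a
  eqW : W = {P | |(P 3).re| < 3 * a / 2 ∧ r P < 0}
  smooth : ContDiffOn ℝ ∞ r {P : V4 | |(P 3).re| < 3 * a / 2}
  dr : ∀ P : V4, |(P 3).re| < 3 * a / 2 → r P = 0 → fderiv ℝ r P ≠ 0
  levi : ∀ P : V4, |(P 3).re| < 3 * a / 2 → r P = 0 → ∀ ξ : V4,
      fderiv ℝ r P ξ = 0 → fderiv ℝ r P (Complex.I • ξ) = 0 → 0 ≤ leviForm r P ξ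
  conn : IsConnected W
  inv_g : ∀ P, r (gE P) = r P
  inv_t : ∀ P k, r (tE k P) = r P
  lt_a : ∀ P ∈ W, |(P 3).re| < a
  sub : closure W ⊆ Unb η

/-! ## The group `Γ` -/

/-- AFF.  The elements of `Γ` are complex affine maps with linear part of determinant one. -/
def S_AFF : Prop := ∀ (j : ℤ) (k : Fin 3 → ℤ), ∃ (L : V4 ≃L[ℂ] V4) (c : V4),
  (L : V4 →L[ℂ] V4).det = 1 ∧ ∀ P, tE k ((gE ^ j) P) = L P + c

/-- GRL.  `Γ P` is the class of an equivalence relation which preserves `U_η`, `Re w`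
(induction on `j`; `gE (tE k P) = tE k' (gE P)`, `gE⁻¹ (tE k P) = tE k'' (gE⁻¹ P)`;
`e^{-κt}x₊` and `e^{κt}x₋` are invariant because `xp (gE P) = lam * xp P` and
`xm (gE P) = lam⁻¹ * xm P`, `lam = exp (2π kap)`). -/
def S_GRL : Prop := (∀ P, GamRel P P) ∧ (∀ P P', GamRel P P' → GamRel P' P) ∧
  (∀ P P' P'', GamRel P P' → GamRel P' P'' → GamRel P P'') ∧
  (∀ P P', GamRel P P' → (P' 3).re = (P 3).re) ∧
  (∀ η P P', GamRel P P' → P ∈ Unb η → P' ∈ Unb η) ∧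
  (∀ P, GamRel P (gE P)) ∧ (∀ P k, GamRel P (tE k P))

/-- FND.  `Box` is a fundamental domain. -/
def S_FND : Prop := (∀ P, ∃ P' ∈ Box, GamRel P P') ∧
  ∀ P ∈ Box, ∀ P' ∈ Box, GamRel P P' → P' = P

/-- INVF.  `GamInv` functions are constant on the `Γ`-classes. -/
def S_INVF : Prop := ∀ {E : Type} (U : Set V4) (f : V4 → E),
  (∀ P P', GamRel P P' → P ∈ U → P' ∈ U) → GamInv U f → ∀ P ∈ U, ∀ P', GamRel P P' → f P' = f P

/-- UNB.  `U_η` is open, `U_η ∩ {0 ≤ Im P_i ≤ 2π}` is bounded. -/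
def S_UNB : Prop := ∀ η : ℝ, IsOpen (Unb η) ∧
  Bornology.IsBounded {P : V4 | P ∈ Unb η ∧ ∀ i, 0 ≤ (P i).im ∧ (P i).im ≤ 2 * Real.pi}

/-! ## The tube -/

/-- TUBE.  `Ω̃` is a tube: everything is in (S_GEO) except `lt_a`: `Atl > 0`, so `r < 0` gives
`σ² < a²`. -/
def S_TUBE : Prop := S_GEO → ∀ (η a A δ₀ ρ₀ : ℝ) (s : ℝ → ℝ) (p : ℂ → ℝ) (B : BlockData),
  IsProfile a A s → IsPotential a δ₀ ρ₀ p B → δ₀ ≤ kap ^ 2 * A / 4 →
    closure (Omt a A s p) ⊆ Unb η → IsTube η a (rfun a A s p) (Omt a A s p)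

/-- BND.  `closure Ω̃ ⊂ U_η`: on `Ω̃` one has `|σ| < a`, `(y₊ - A)² ≤ Atl * (a²-σ²) ≤ 4A²`,
`y₋² + y₀² ≤ 4A²(a²-σ²) ≤ A²`, `|e^{-κt}x₊| ≤ |y₊| + δ₀ ≤ 3A + δ₀`; these are closed conditions and
`3A + δ₀ < η`, `a < η`. -/
def S_BND : Prop := ∀ (η a A δ₀ ρ₀ : ℝ) (s : ℝ → ℝ) (p : ℂ → ℝ) (B : BlockData),
  IsProfile a A s → IsPotential a δ₀ ρ₀ p B → a < η → 3 * A + δ₀ < η → closure (Omt a A s p) ⊆ Unb η

/-- CLW.  Points of the closure of `W`, invariance of `W` and of its closure. -/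
def S_CLW : Prop := ∀ (η a : ℝ) (r : V4 → ℝ) (W : Set V4), IsTube η a r W →
  IsOpen W ∧ (∀ P ∈ closure W, |(P 3).re| ≤ a ∧ r P ≤ 0) ∧ (∀ P ∈ closure W, P ∉ W → r P = 0) ∧
  (∀ P P', GamRel P P' → P ∈ W → P' ∈ W) ∧ (∀ P P', GamRel P P' → P ∈ closure W → P' ∈ closure W)

/-- LINV.  Local holomorphic inverses of `Θ` (inverse function theorem). -/
def S_LINV : Prop := ∀ (η : ℝ) (Θ : V4 → V4), IsEmb η Θ → ∀ P ∈ Unb η, ∃ (S : Set V4) (Ψ : V4 → V4),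
  IsOpen S ∧ Θ P ∈ S ∧ DifferentiableOn ℂ Ψ S ∧ Ψ (Θ P) = P ∧
    (∀ z ∈ S, Ψ z ∈ Unb η ∧ Θ (Ψ z) = z) ∧ ∀ᶠ Q in 𝓝 P, Θ Q ∈ S ∧ Ψ (Θ Q) = Q

/-- IMG.  The image of a tube.  (Boundedness and `closure (Θ '' W) = Θ '' closure W`: by S_FND both
`Θ '' W` and `Θ '' closure W` are images of the parts in `closure Box`, and
`closure W ∩ closure Box` is compact by S_UNB.) -/
def S_IMG : Prop := ∀ (η a : ℝ) (r : V4 → ℝ) (W : Set V4) (Θ : V4 → V4), IsTube η a r W →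
  IsEmb η Θ → IsOpen (Θ '' Unb η) ∧ IsOpen (Θ '' W) ∧ IsConnected (Θ '' W) ∧
    Bornology.IsBounded (Θ '' W) ∧ closure (Θ '' W) = Θ '' closure W ∧
    (∀ P ∈ Unb η, Θ P ∈ Θ '' W → P ∈ W) ∧ (∀ P ∈ Unb η, Θ P ∈ Θ '' closure W → P ∈ closure W)

/-- DFN.  The defining function `r ∘ Θ⁻¹` of `Θ '' W`. -/
def S_DFN : Prop := ∀ (η a : ℝ) (r : V4 → ℝ) (W : Set V4) (Θ : V4 → V4), IsTube η a r W →
  IsEmb η Θ → ∃ ρ : V4 → ℝ, IsDefiningFunction (Θ '' W) ρ ∧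
    ∀ P ∈ Unb η, |(P 3).re| < 3 * a / 2 → ρ (Θ P) = r P

/-- LVI.  `Θ '' W` is a smooth bounded pseudoconvex domain (S_IMG, S_DFN, S_LEVC). -/
def S_LVI : Prop := ∀ (η a : ℝ) (r : V4 → ℝ) (W : Set V4) (Θ : V4 → V4), IsTube η a r W →
  IsEmb η Θ → IsSmoothBoundedPseudoconvexDomain (Θ '' W)

/-! ## The Bergman projection -/

/-- FHAT.  `f̂ = (f ∘ Θ) det Θ'`.  (Holomorphic maps of several variables are smooth and have
holomorphic derivatives: `Pool.Agent.Helper8.Abund.differentiableOn_fderiv`,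
`Pool.Agent.Helper95.Lin.holo_contDiffOn_real`.) -/
def S_FHAT : Prop := ∀ (η a : ℝ) (r : V4 → ℝ) (W : Set V4) (Θ : V4 → V4), IsTube η a r W →
  IsEmb η Θ → GamInv (Unb η) (fun P => (fderiv ℂ Θ P).det) ∧
    DifferentiableOn ℂ (fun P => (fderiv ℂ Θ P).det) (Unb η) ∧
    ∀ f : V4 → ℂ, ContDiffOn ℝ ∞ f (closure (Θ '' W)) →
      ContDiffOn ℝ ∞ (fun P => f (Θ P) * (fderiv ℂ Θ P).det) (closure W) ∧
      GamInv (closure W) (fun P => f (Θ P) * (fderiv ℂ Θ P).det)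

/-- GDN.  Descent of `ĝ` (divide by `det Θ'` and compose with the local inverses, which map
`closure (Θ '' W)` to `closure W`). -/
def S_GDN : Prop := ∀ (η a : ℝ) (r : V4 → ℝ) (W : Set V4) (Θ : V4 → V4), IsTube η a r W →
  IsEmb η Θ → ∀ g' : V4 → ℂ, ContDiffOn ℝ ∞ g' (closure W) → GamInv (closure W) g' →
    DifferentiableOn ℂ g' W → ∃ g : V4 → ℂ, ContDiffOn ℝ ∞ g (closure (Θ '' W)) ∧
      DifferentiableOn ℂ g (Θ '' W) ∧ ∀ P ∈ closure W, g (Θ P) * (fderiv ℂ Θ P).det = g' P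

/-- COV.  Change of variables on the fundamental domain
(`integral_image_eq_integral_abs_det_fderiv_smul`, S_DETR). -/
def S_COV : Prop := ∀ (η a : ℝ) (r : V4 → ℝ) (W : Set V4) (Θ : V4 → V4), IsTube η a r W →
  IsEmb η Θ → ∀ {E : Type} [NormedAddCommGroup E] [NormedSpace ℝ E] (F : V4 → E),
    (IntegrableOn F (Θ '' W) ↔ IntegrableOn (fun P => (‖(fderiv ℂ Θ P).det‖ ^ 2) • F (Θ P)) (W ∩ Box)) ∧
    ∫ z in Θ '' W, F z = ∫ P in W ∩ Box, (‖(fderiv ℂ Θ P).det‖ ^ 2) • F (Θ P)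

end Pool.Agent.Helper15.AB
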