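import Pool.Agent.Helper24.AB.Defs2
import Pool.Agent.Helper15.AB.GoalsT

/-! # Project AB (MP_1ef41b_an), module GEO: the domain in the cover (PAPER.md, Section 3)

Every `def S_XXX : Prop` is a packet.  Earlier goals may be assumed as hypotheses. -/

open MeasureTheory Set Filter Topology
open scoped ContDiff

noncomputable section

namespace Pool.Agent.Helper15.AB

open Pool.Agent.Helper24.AB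

/-- ATL.  `Ã` is smooth and positive on `ℝ` (on `|x| < a` it is `s²/(a²-x²)`, by `IsProfile.edge` also for `|x| ≥ 19a/20`;
it is constant for `|x| ≥ 19a/20`). -/
def S_ATL : Prop := ∀ (a A : ℝ) (s : ℝ → ℝ), IsProfile a A s →
  ContDiff ℝ ∞ (Atl a A s) ∧ (∀ x, 0 < Atl a A s x) ∧
  (∀ x, |x| < a → Atl a A s x * (a ^ 2 - x ^ 2) = s x ^ 2) ∧
  ∀ x, 19 / 20 * a ≤ |x| → Atl a A s x = 4 * A ^ 2 / a ^ 2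

/-- the inverse of `Ξ` -/
def XiI (a A : ℝ) (s : ℝ → ℝ) (p : ℂ → ℝ) (P : V4) : (Fin 4 → ℝ) × (Fin 4 → ℝ) :=
  (![(ypf p P - A) / Real.sqrt (Atl a A s (P 3).re), ymf P / (2 * A), x0 P / (2 * A), (P 3).re],
    fun i => (P i).im)

/-- XI.  The global coordinates.  (`ph - ph' = √5`, `xp`, `xm` of `Ξ q` are the numbers `Xp`, `Xq` in the definition of `Ξ`.) -/
def S_XI : Prop := ∀ (a A : ℝ) (s : ℝ → ℝ) (p : ℂ → ℝ), IsProfile a A s →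
  ContDiffOn ℝ ∞ p (strip (3 * a / 2)) →
  ContDiffOn ℝ ∞ (Xi a A s p) {q | |q.1 3| < 3 * a / 2} ∧
  ContDiffOn ℝ ∞ (XiI a A s p) {P | |(P 3).re| < 3 * a / 2} ∧
  (∀ q, XiI a A s p (Xi a A s p q) = q) ∧ (∀ P, Xi a A s p (XiI a A s p P) = P) ∧
  (∀ q, Xi a A s p q 3 = ⟨q.1 3, q.2 3⟩) ∧
  (∀ q, rfun a A s p (Xi a A s p q) = (∑ i, q.1 i ^ 2) - a ^ 2) ∧
  (∀ q, Xi a A s p q ∈ Omt a A s p ↔ (∑ i, q.1 i ^ 2) < a ^ 2) ∧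
  (∀ q, Xi a A s p q ∈ closure (Omt a A s p) ↔ (∑ i, q.1 i ^ 2) ≤ a ^ 2)

/-- RSM.  `r` is smooth, `dr ≠ 0` on `r = 0`, `Ω̃` is connected: `r = Σζ_i² - a²` in the coordinates `Ξ`; the derivative of `r ∘ Ξ` in the
direction `(ζ,0)` is `2a² ≠ 0`; `Ω̃ = Ξ (ball × ℝ⁴)` with a convex set. -/
def S_RSM : Prop := ∀ (a A : ℝ) (s : ℝ → ℝ) (p : ℂ → ℝ), IsProfile a A s →
  ContDiffOn ℝ ∞ p (strip (3 * a / 2)) →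
  ContDiffOn ℝ ∞ (rfun a A s p) {P : V4 | |(P 3).re| < 3 * a / 2} ∧
  (∀ P : V4, |(P 3).re| < 3 * a / 2 → rfun a A s p P = 0 → fderiv ℝ (rfun a A s p) P ≠ 0) ∧
  IsConnected (Omt a A s p)

/-- INV.  `r` is `Γ`-invariant (`xp (gE P) = lam xp P`, `xm (gE P) = lam⁻¹ xm P`, `exp (2π kap) = lam`). -/
def S_INV : Prop := ∀ (a A : ℝ) (s : ℝ → ℝ) (p : ℂ → ℝ),
  (∀ w, p (w + 2 * Real.pi * Complex.I) = lam * p w) → ∀ P : V4,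
    rfun a A s p (gE P) = rfun a A s p P ∧ ∀ k, rfun a A s p (tE k P) = rfun a A s p P

/-- the coefficient of `4A² u²g` -/
def m1 (a A k x s s1 s2 : ℝ) : ℝ :=
  -4 * s ^ 2 + 4 * (a ^ 2 - x ^ 2) * (s1 ^ 2 + s * s2) + 8 * x * s * s1 +
    24 * k ^ 2 * s ^ 2 * (a ^ 2 - x ^ 2) + 6 * k ^ 2 * A * s * (a ^ 2 - x ^ 2)

/-- PRF.  Facts on the profile, `e = a² - x²`, `s1 = s'`, `s2 = s''`, `κ² e ≤ 1/160`.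
`kap² ≤ 1/40`: `lam ≤ 2.6181 < exp 0.99`, `0.99/(2π) < 0.1576`.
`|x| ≤ 19a/20`: `A/2 ≤ s`, so `A ≤ 2s`; `4 e s1² + 8 x s s1 = 4 s1 (e s1 + 2xs) ≤ 0` because `x s1 ≤ 0` and
`|e s1| ≤ 1.05 s|x|`; `4 e s s2 ≤ -4κ² e s (s + A)` (k1); hence `m1 ≤ -4s² + 20κ²s²e + 2κ²Ase ≤ -3.85 s² ≤ -0.96A²`.
`|x| > 19a/20`: near `x` one has `s = 2A√e/a`, so `s1 = -2Ax/(a√e)`, `s2 = -2Aa/(e√e)` and
`-4s² + 4e(s1² + s s2) + 8x s s1 = -32A²`, the other two terms are `≤ A²` (`s ≤ 2A`, `e ≤ 1/4`).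
Last inequality: `|x| ≤ 19a/20`: `2κ²Ae²/s ≤ 4κ²e²` and `12κ²e² ≤ a²` (`e ≤ a² ≤ 1/4`); `|x| > 19a/20`:
`A e²/s = a e√e/2 ≤ a⁴/2`. -/
def S_PRF : Prop := 0 < kap ∧ kap ^ 2 ≤ 1 / 40 ∧ ∀ (a A : ℝ) (s : ℝ → ℝ), IsProfile a A s →
  ∀ x ∈ Ioo (-a) a, m1 a A kap x (s x) (deriv s x) (deriv (deriv s) x) ≤ -(9 / 10) * A ^ 2 ∧
    -4 * a ^ 2 + 8 * kap ^ 2 * (a ^ 2 - x ^ 2) ^ 2 + 2 * kap ^ 2 * A * (a ^ 2 - x ^ 2) ^ 2 / s x ≤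
      -3 * a ^ 2

/-- `2F(F_σσ + F_tt) - F_σ² - F_t²` in terms of the data (`F = s²u² + 4A²eg`, `e = a²-x²`, `g = v²+l²`). -/
def Tex (a A k x s s1 s2 u v l : ℝ) : ℝ :=
  2 * (s ^ 2 * u ^ 2 + 4 * A ^ 2 * (a ^ 2 - x ^ 2) * (v ^ 2 + l ^ 2)) *
    (2 * (s1 ^ 2 + s * s2) * u ^ 2 - 8 * A ^ 2 * (v ^ 2 + l ^ 2) +
      4 * k ^ 2 * (s ^ 2 * u ^ 2 + 4 * A ^ 2 * (a ^ 2 - x ^ 2) * v ^ 2)) -
    (2 * s * s1 * u ^ 2 - 8 * A ^ 2 * x * (v ^ 2 + l ^ 2)) ^ 2 -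
    (2 * k * (s ^ 2 * u ^ 2 - 4 * A ^ 2 * (a ^ 2 - x ^ 2) * v ^ 2)) ^ 2

/-- LF.  The Laplacian of `H⁰ = Au + √F`: `F_σ = 2ss'u² - 8A²σg`, `F_σσ = 2(s'²+ss'')u² - 8A²g`, `F_t = 2κ(s²u² - 4A²e v²)`,
`F_tt = 4κ²(s²u² + 4A²e v²)`, `Δ√F = (2FΔF - |∇F|²)/(4F√F)`, `u_tt = κ²u`. -/
def S_LF : Prop := ∀ (a A : ℝ) (s : ℝ → ℝ), IsProfile a A s → ∀ α α' l : ℝ,
  (α ≠ 0 ∨ α' ≠ 0 ∨ l ≠ 0) → ∀ w ∈ strip a, 0 < Ff a A s α α' l w ∧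
    ContDiffOn ℝ ∞ (H0f a A s α α' l) (strip a) ∧
    lapC (H0f a A s α α' l) w = kap ^ 2 * A * uf α w.im +
      Tex a A kap w.re (s w.re) (deriv s w.re) (deriv (deriv s) w.re) (uf α w.im) (vf α' w.im) l /
        (4 * Ff a A s α α' l w * Real.sqrt (Ff a A s α α' l w))

/-- TALG.  The algebraic inequality (3.1).  With `β = 4A²`, `e = a²-x²`, `g = v²+l²`:
`Tex = 4s³s2 u⁴ + βu²g(-4s² + 4e(s1²+s s2) + 8x s s1) - 4β²a²g² + [2FF_tt - F_t²]`,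
`2FF_tt - F_t² ≤ 4k²s⁴u⁴ + 24k²s²βe u²g + 8k²β²e²g²` (`v² ≤ g`), and for `u > 0`
`u F√F ≤ s³u⁴ + (3/2)sβe g u² + β²e²g²/(2s)` (with `P = s²u²`, `R = βeg`: `(P+R)³P ≤ (P+R)²(P+R/2)²`). -/
def S_TALG : Prop := ∀ a A k x s s1 s2 u v l : ℝ, 0 < a → 0 < A → 0 < k → |x| < a → 0 < s →
  0 < s ^ 2 * u ^ 2 + 4 * A ^ 2 * (a ^ 2 - x ^ 2) * (v ^ 2 + l ^ 2) →
  m1 a A k x s s1 s2 ≤ -(9 / 10) * A ^ 2 →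
  -4 * a ^ 2 + 8 * k ^ 2 * (a ^ 2 - x ^ 2) ^ 2 + 2 * k ^ 2 * A * (a ^ 2 - x ^ 2) ^ 2 / s ≤
    -3 * a ^ 2 →
  Tex a A k x s s1 s2 u v l + 4 * k ^ 2 * A * max u 0 *
    ((s ^ 2 * u ^ 2 + 4 * A ^ 2 * (a ^ 2 - x ^ 2) * (v ^ 2 + l ^ 2)) *
      Real.sqrt (s ^ 2 * u ^ 2 + 4 * A ^ 2 * (a ^ 2 - x ^ 2) * (v ^ 2 + l ^ 2))) ≤
    -(4 * s ^ 3 * (-(s2 + k ^ 2 * s + k ^ 2 * A)) * u ^ 4 +
      18 / 5 * A ^ 4 * u ^ 2 * (v ^ 2 + l ^ 2) + 48 * A ^ 4 * a ^ 2 * (v ^ 2 + l ^ 2) ^ 2)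

/-- LVW.  Levi form of a function of `w` only (`D²f(c,c) + D²f(ic,ic) = |c|²Δf`). -/
def S_LVW : Prop := ∀ (f : ℂ → ℝ) (P : V4), ContDiffAt ℝ 2 f (P 3) → ∀ ξ : V4,
  leviForm (fun Q : V4 => f (Q 3)) P ξ = lapC f (P 3) * ‖ξ 3‖ ^ 2

/-- BARL.  Barrier lemma.  First `Dr₁ = c Dr` with `c ≥ 0` (if `Dr z < 0` then `r(P+εz) < 0` for small `ε`, so `Dr₁ z ≤ 0`), `c = 1` by
`N`.  For `Dr z = 0` and `δ > 0` take `μ` with `½D²r(z,z) + μ Dr N = -δ`: `r(P + τz + μτ²N) = -δτ² + o(τ²) < 0`, hence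
`0 ≥ r₁(..) = τ²(½D²r₁(z,z) + μ Dr₁ N) + o(τ²)`, i.e. `½D²r₁(z,z) ≤ ½D²r(z,z) + δ`. -/
def S_BARL : Prop := ∀ (r r₁ : V4 → ℝ) (P N : V4), ContDiffAt ℝ 2 r P → ContDiffAt ℝ 2 r₁ P →
  r P = 0 → r₁ P = 0 → fderiv ℝ r P N ≠ 0 → fderiv ℝ r₁ P N = fderiv ℝ r P N →
  (∀ᶠ Q in 𝓝 P, r Q ≤ 0 → r₁ Q ≤ 0) → fderiv ℝ r₁ P = fderiv ℝ r P ∧
    ∀ z, fderiv ℝ r P z = 0 →
      (fderiv ℝ (fderiv ℝ r₁) P z) z ≤ (fderiv ℝ (fderiv ℝ r) P z) z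

/-- SUPH.  `H = H⁰ - αp` is the support function: Cauchy-Schwarz.  For `Q` with `|σ| < a`, `r Q ≤ 0`:
`ν·X = u y₊ + v y₋ + l y₀ - αp = Au - αp + [su(y₊-A)/s + ..] ≤ Au - αp + √F √((y₊-A)²/s² + (y₋²+y₀²)/(4A²e))`.
At a point with `r P = 0` and `α = e^{-κt}u`, `u = 2(y₊-A)/Ã`, `α' = e^{κt}v`, `v = 2y₋/(4A²)`, `l = 2y₀/(4A²)` equality holds
(`√F = 2(a²-σ²)`). -/
def S_SUPH : Prop := ∀ (a A : ℝ) (s : ℝ → ℝ) (p : ℂ → ℝ), IsProfile a A s →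
  (∀ (α α' l : ℝ) (Q : V4), |(Q 3).re| < a → rfun a A s p Q ≤ 0 →
    α * xp Q + α' * xm Q + l * x0 Q ≤ H0f a A s α α' l (Q 3) - α * p (Q 3)) ∧
  ∀ (P : V4), |(P 3).re| < a → rfun a A s p P = 0 →
    ∀ α α' l : ℝ, uf α (P 3).im = 2 * (ypf p P - A) / Atl a A s (P 3).re →
      vf α' (P 3).im = 2 * ymf P / (4 * A ^ 2) → l = 2 * x0 P / (4 * A ^ 2) →
      α * xp P + α' * xm P + l * x0 P = H0f a A s α α' l (P 3) - α * p (P 3)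

/-- LEV1.  The Levi form at the points of `r = 0` with `|σ| < a`.  With `α, α', l` as in S_SUPH (they are the derivatives of `r` with
respect to `x₊, x₋, x₀`; not all zero, since `r = 0`, `σ² < a²`), `r₁ Q = α xp Q + α' xm Q + l x0 Q - (H⁰(Q 3) - αp(Q 3))`, near `P`
`{r ≤ 0} ⊂ {r₁ ≤ 0}`, `r₁ P = 0`; `N` a real vector in the `X`-directions with `Dr N ≠ 0`, there `Dr₁ N = Dr N`.  S_BARL gives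
`leviForm r P ξ ≥ leviForm r₁ P ξ` for `Dr ξ = Dr(iξ) = 0`, and by S_LVW `leviForm r₁ P ξ = -lapC(H⁰ - αp)‖ξ 3‖² ≥ 0`:
S_LH0 gives `-lapC H⁰ ≥ κ²A max(-u,0)` (drop the other nonnegative terms), `αΔp ≥ 0` for `α ≥ 0` and
`αΔp ≥ -|α|δ₀e^{κt} = -δ₀|u|` for `α < 0`. -/
def S_LEV1 : Prop := ∀ (a A δ₀ ρ₀ : ℝ) (s : ℝ → ℝ) (p : ℂ → ℝ) (B : BlockData),
  IsProfile a A s → IsPotential a δ₀ ρ₀ p B → δ₀ ≤ kap ^ 2 * A / 4 →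
    ∀ P : V4, |(P 3).re| < a → rfun a A s p P = 0 → ∀ ξ : V4,
      fderiv ℝ (rfun a A s p) P ξ = 0 → fderiv ℝ (rfun a A s p) P (Complex.I • ξ) = 0 →
        0 ≤ leviForm (rfun a A s p) P ξ

/-- LEV0.  The Levi form at the points of `r = 0` with `a ≤ |σ| < 3a/2`.  There `y₊ = A`, `y₋ = y₀ = 0`, `|σ| = a`, `Dr ξ = 2σ Re ξ 3`, so
`ξ 3 = 0` for complex tangent vectors, and `r(P + τξ)` is `τ²` times a nonnegative constant. -/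
def S_LEV0 : Prop := ∀ (a A : ℝ) (s : ℝ → ℝ) (p : ℂ → ℝ), IsProfile a A s →
  ContDiffOn ℝ ∞ p (strip (3 * a / 2)) →
    ∀ P : V4, a ≤ |(P 3).re| → |(P 3).re| < 3 * a / 2 → rfun a A s p P = 0 → ∀ ξ : V4,
      fderiv ℝ (rfun a A s p) P ξ = 0 → fderiv ℝ (rfun a A s p) P (Complex.I • ξ) = 0 →
        0 ≤ leviForm (rfun a A s p) P ξ

end Pool.Agent.Helper15.AB
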