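import Pool.Agent.Helper24.AB.Defs

/-! # Project AB (MP_1ef41b_an), modules TR and DF: general lemmas (definitions and goals) -/

open MeasureTheory Set Filter Topology
open scoped ContDiff

noncomputable section

namespace Pool.Agent.Helper15.AB

open Pool.Agent.Helper24.AB

/-- TAYL.  Circle averages of a `C²` function: `(mean over the circle of radius r - f c)/r² → Δf(c)/4`.
Proof: `f(c+h) = f(c) + Df h + ½ D²f(h,h) + o(|h|²)`; the mean of `Df(r e^{iθ})` is `0`, the mean of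
`D²f(e^{iθ},e^{iθ})` is `½(D²f(1,1) + D²f(i,i)) = ½ lapC f c`. -/
def S_TAYL : Prop := ∀ (f : ℂ → ℝ) (c : ℂ), ContDiffAt ℝ 2 f c →
  Tendsto (fun r : ℝ => (Real.circleAverage f c r - f c) / r ^ 2) (𝓝[>] 0) (𝓝 (lapC f c / 4))

/-- LEVC.  Chain rule for the Levi form: `u` is `C²` at `Θ P` and `Θ` holomorphic near `P`.
`D²(u∘Θ)(ξ,ξ) = D²u(Θ'ξ,Θ'ξ) + Du(Θ''(ξ,ξ))` and `Θ''(ξ,ξ) + Θ''(iξ,iξ) = 0`. -/
def S_LEVC : Prop := ∀ {n m : ℕ} (U : Set (Fin n → ℂ)) (Θ : (Fin n → ℂ) → (Fin m → ℂ))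
  (u : (Fin m → ℂ) → ℝ) (P : Fin n → ℂ), IsOpen U → DifferentiableOn ℂ Θ U → P ∈ U →
    ContDiffAt ℝ 2 u (Θ P) → ∀ ξ, leviForm (fun Q => u (Θ Q)) P ξ = leviForm u (Θ P) (fderiv ℂ Θ P ξ)

/-- LAPC.  The same for holomorphic discs. -/
def S_LAPC : Prop := ∀ {m : ℕ} (D : Set ℂ) (γ : ℂ → (Fin m → ℂ))
  (u : (Fin m → ℂ) → ℝ) (w : ℂ), IsOpen D → DifferentiableOn ℂ γ D → w ∈ D →
    ContDiffAt ℝ 2 u (γ w) → lapC (fun w => u (γ w)) w = leviForm u (γ w) (deriv γ w)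

/-- PSHL.  A `C²` plurisubharmonic function has a nonnegative Levi form (S_TAYL and S_LAPC for the affine
discs `s ↦ z + s ξ`, the sub-mean value inequality being applied to the vectors `r ξ`, `r → 0`). -/
def S_PSHL : Prop := ∀ {n : ℕ} (Ω : Set (Fin n → ℂ)) (u : (Fin n → ℂ) → ℝ), IsOpen Ω →
  ContDiffOn ℝ 2 u Ω → IsPshOn Ω u → ∀ z ∈ Ω, ∀ ξ, 0 ≤ leviForm u z ξ

/-- SMV.  `Δf ≥ 0` implies the sub-mean value inequality (Pool.Agent.Helper27.PCap.pkCirc gives the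
derivative of the circle means; see also Pool.Agent.Helper11.HS.pshOn_of_lev). -/
def S_SMV : Prop := ∀ (f : ℂ → ℝ) (O : Set ℂ) (c : ℂ) (r : ℝ), IsOpen O → ContDiffOn ℝ 2 f O →
  (∀ w ∈ O, 0 ≤ lapC f w) → 0 ≤ r → Metric.closedBall c r ⊆ O → f c ≤ Real.circleAverage f c r

/-- GRD.  If `{r < 0} ⊂ {R ≤ 0}` near `P`, `r P = R P = 0`, then `DR(P) = c Dr(P)` with `c > 0`.
Proof: `Dr v < 0` implies `r(P+εv) < 0` for small `ε > 0`, so `DR v ≤ 0`; hence `ker Dr ⊂ ker DR` etc. -/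
def S_GRD : Prop := ∀ (r R : V4 → ℝ) (P : V4), DifferentiableAt ℝ r P → DifferentiableAt ℝ R P →
  r P = 0 → R P = 0 → fderiv ℝ r P ≠ 0 → fderiv ℝ R P ≠ 0 → (∀ᶠ Q in 𝓝 P, r Q < 0 → R Q ≤ 0) →
    ∃ c : ℝ, 0 < c ∧ fderiv ℝ R P = c • fderiv ℝ r P

/-- PARI.  Smoothness of parametric interval integrals (induction on the order of differentiability,
`hasFDerivAt_integral_of_dominated_of_fderiv_le`, tube lemma for the bounds). -/
def S_PARI : Prop := ∀ {E : Type} [NormedAddCommGroup E] [NormedSpace ℝ E] (U : Set E)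
  (F : E × ℝ → ℝ) (a b : ℝ), IsOpen U → ContDiffOn ℝ ∞ F (U ×ˢ univ) →
    ContDiffOn ℝ ∞ (fun x => ∫ θ in a..b, F (x, θ)) U

/-- DETR.  The real determinant of a complex linear map of `ℂ⁴` is `|det|²`
(`LinearMap.det_restrictScalars`, `Algebra.norm_complex_eq`). -/
def S_DETR : Prop := ∀ L : V4 →L[ℂ] V4,
  (L.restrictScalars ℝ).det = ‖L.det‖ ^ 2

end Pool.Agent.Helper15.AB
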