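import Pool.Agent.Helper24.AB.NT.Goals

/-! # Project AB (MP_1ef41b_an), module POT: the potential `p` (PAPER.md, Section 2)

Every `def S_XXX : Prop` is a packet.  Earlier goals may be assumed as hypotheses. -/

open MeasureTheory Set Filter Topology
open scoped ContDiff

noncomputable section

namespace Pool.Agent.Helper15.AB

open Pool.Agent.Helper24.AB

/-- a smooth step: `0` for `x ≤ 1/2`, `1` for `x ≥ 1`, nondecreasing -/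
def vt (x : ℝ) : ℝ := Real.smoothTransition (2 * x - 1)

/-- `h(x) = ∫_1^x ϑ(s)/s ds` -/
def hh (x : ℝ) : ℝ := ∫ s in (1 : ℝ)..x, vt s / s

/-- `2πi` -/
def tpi : ℂ := 2 * Real.pi * Complex.I

/-- `L(w) = log |tan w|` -/
def Lt (w : ℂ) : ℝ := Real.log ‖Complex.tan w‖

/-- `log |tan w / w|`, smooth and harmonic for `|Re w| < π/2` -/
def Gt (w : ℂ) : ℝ := if w = 0 then 0 else Real.log ‖Complex.tan w / w‖

/-- the regularisation `L_r` of `L`: `L_r = L` for `‖w‖ ≥ r` -/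
def Lr (r : ℝ) (w : ℂ) : ℝ := Gt w + (Real.log r + hh (‖w‖ ^ 2 / r ^ 2) / 2)

/-- `E_r(w) = Σ_k λ^k L_r(w - 2πik)` -/
def Er (r : ℝ) (w : ℂ) : ℝ := ∑' k : ℤ, lam ^ k * Lr r (w - k * tpi)

/-- HH.  The function `h` (`vt s / s` vanishes for `s ≤ 1/2`, so it is smooth on `ℝ`). -/
def S_HH : Prop := ContDiff ℝ ∞ vt ∧ Monotone vt ∧ (∀ x, 1 ≤ x → vt x = 1) ∧
  (∀ x, x ≤ 1 / 2 → vt x = 0) ∧ (∀ x, 0 ≤ deriv vt x) ∧ (∀ x, 1 ≤ x → deriv vt x = 0) ∧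
  (∀ x, x ≤ 1 / 2 → deriv vt x = 0) ∧ ContDiff ℝ ∞ hh ∧ (∀ x, HasDerivAt hh (vt x / x) x) ∧
  (∀ x, 1 ≤ x → hh x = Real.log x)

/-- GT.  `Gt` is smooth and harmonic on the strip `|Re w| < π/2` (`tan w / w` extends to a nonvanishing
holomorphic function with value `1` at `0`; locally `log ‖F‖ = Re log F`), and `Lt = Gt + log ‖w‖` there for `w ≠ 0`. -/
def S_GT : Prop := ContDiffOn ℝ ∞ Gt (strip (Real.pi / 2)) ∧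
  (∀ w ∈ strip (Real.pi / 2), lapC Gt w = 0) ∧
  (∀ w ∈ strip (Real.pi / 2), w ≠ 0 → Lt w = Gt w + Real.log ‖w‖)

/-- LR.  Properties of `L_r`; the Laplacian of `h(‖w‖²/r²)/2` is `(2/r²)(x h')'(x)` at `x = ‖w‖²/r²`, and `x h'(x) = ϑ(x)`;
the integral by polar coordinates (`Complex.integral_comp_polarCoord_symm` or
`integral_fun_norm_addHaar`): `∫ (2/r²)ϑ'(ρ²/r²) 2πρ dρ = 2π (ϑ(R²/r²) - ϑ(0)) = 2π`. -/
def S_LR : Prop := ∀ r : ℝ, 0 < r → ContDiffOn ℝ ∞ (Lr r) (strip (Real.pi / 2)) ∧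
  (∀ w ∈ strip (Real.pi / 2), lapC (Lr r) w = 2 / r ^ 2 * deriv vt (‖w‖ ^ 2 / r ^ 2)) ∧
  (∀ w ∈ strip (Real.pi / 2), r ≤ ‖w‖ → Lr r w = Lt w) ∧
  ∀ R : ℝ, r ≤ R → (∫ w in Metric.ball (0 : ℂ) R, 2 / r ^ 2 * deriv vt (‖w‖ ^ 2 / r ^ 2)) = 2 * Real.pi

/-- LTP.  `tan w = i(1-e^{2iw})/(1+e^{2iw})`: in the upper half plane `Lt = Re Λ` with
`Λ(w) = log(1-e^{2iw}) - log(1+e^{2iw})` holomorphic and `O(e^{-2 Im w})`; `Lt (-w) = Lt w`. -/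
def S_LTP : Prop := ∃ Λ : ℂ → ℂ, DifferentiableOn ℂ Λ {w | 0 < w.im} ∧
  (∀ w : ℂ, 0 < w.im → Lt w = (Λ w).re) ∧ (∀ w : ℂ, 1 ≤ w.im → ‖Λ w‖ ≤ 8 * Real.exp (-2 * w.im)) ∧
  ∀ w : ℂ, Lt (-w) = Lt w

/-- SER.  The series `E_r`, `0 < r ≤ 1`.
Proof.  Let `|Im w| < 4` (an open set).  For `|k| ≥ 1` the point `w - 2πik` has imaginary part `< -2` (`k ≥ 1`) resp.
`> 2` (`k ≤ -1`), so by S_LR, S_LTP the term is `lam^k Re Λ(-(w-2πik))` resp. `lam^k Re Λ(w - 2πik)`, bounded by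
`8 lam^{|k|} e^{-2(2π|k|-4)}`; `lam < 3`, `e^{4π} > 3`: summable, so the sum over `k ≠ 0` is the real part of a holomorphic
function `H` (`differentiableOn_tsum_of_summable_norm`) and `E_r = L_r + Re H` for `|Im w| < 4`.  Hence `E_r` is smooth there with
`lapC E_r = lapC L_r` (the real part of a holomorphic function is harmonic); use `E_r(w+2πi) = lam E_r(w)` (reindexing, true for
every `w`) to get the smoothness everywhere in the strip. -/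
def S_SER : Prop := ∀ r : ℝ, 0 < r → r ≤ 1 → (∀ w, Er r (w + tpi) = lam * Er r w) ∧
  ContDiffOn ℝ ∞ (Er r) (strip (Real.pi / 2)) ∧
  ∀ w ∈ strip (Real.pi / 2), |w.im| < 4 → lapC (Er r) w = 2 / r ^ 2 * deriv vt (‖w‖ ^ 2 / r ^ 2)

/-- SERL.  The Laplacian of `E_r` everywhere (from S_SER by quasi-periodicity: `lapC (Er r) (w + tpi) = lam * lapC (Er r) w`;
every `w` has an integer `k` with `|Im (w - 2πik)| ≤ π < 4`; for the other `k'` one has `‖w - 2πik'‖ ≥ π > r`, where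
`deriv vt = 0`). -/
def S_SERL : Prop := ∀ r : ℝ, 0 < r → r ≤ 1 →
  (∀ w ∈ strip (Real.pi / 2), 0 ≤ lapC (Er r) w) ∧
  (∀ w ∈ strip (Real.pi / 2), (∀ k : ℤ, r ≤ ‖w - k * tpi‖) → lapC (Er r) w = 0) ∧
  ∀ w ∈ strip (Real.pi / 2), lapC (Er r) (w + tpi) = lam * lapC (Er r) w

/-- a cut-off function of `σ`: `1` for `|σ| ≤ 3/4`, `0` for `|σ| ≥ 1`. -/
def chS (x : ℝ) : ℝ := Real.smoothTransition (4 - 4 * |x|)

/-- the potential of a finite block of holes -/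
def Pb (S : Finset ℂ) (r : ℝ) (w : ℂ) : ℝ := chS w.re * ∑ x ∈ S, Er r (w - x)

/-- BLK.  Block potentials.  (`4 - 4|x| ≥ 1` for `|x| ≤ 3/4`, `chS` is smooth because it is `1` near `0`;
for `|Re w| < 1.01` and `|Re x| < 1/2` the point `w - x` is in the strip `|σ| < π/2`.)  The flux: on the ball around `x`
only the term of `x` has a nonzero Laplacian, which is `2/r² ϑ'(‖w-x‖²/r²)`. -/
def S_BLK : Prop := ∀ (S : Finset ℂ) (r : ℝ), 0 < r → r ≤ 1 → (∀ x ∈ S, |x.re| < 1 / 2) →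
  ContDiff ℝ ∞ (Pb S r) ∧ (∀ w, Pb S r (w + tpi) = lam * Pb S r w) ∧
  (∀ w, 1 ≤ |w.re| → Pb S r w = 0) ∧ (∀ w ∈ strip (3 / 4), 0 ≤ lapC (Pb S r) w) ∧
  (∀ w ∈ strip (3 / 4), (∀ x ∈ S, ∀ k : ℤ, r ≤ ‖w - x - k * tpi‖) → lapC (Pb S r) w = 0) ∧
  (∀ x ∈ S, ∀ R : ℝ, r ≤ R → R ≤ 1 → Metric.ball x R ⊆ strip (3 / 4) →
    (∀ x' ∈ S, x' ≠ x → ∀ w ∈ Metric.ball x R, ∀ k : ℤ, r ≤ ‖w - x' - k * tpi‖) →
    (∫ w in Metric.ball x R, lapC (Pb S r) w) = 2 * Real.pi)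

/-- SUM.  Sums `Σ ε_j P_j` with rapidly decreasing `ε_j`.
Proof.  `Ph j w = e^{-κ t} P j w` is `2πi`-periodic and smooth, with support in `|σ| ≤ σ_j`, so
`C j m = sup ‖iteratedFDeriv ℝ m (Ph j)‖ < ∞` (compactness of `[-σ_j,σ_j] × [0,2π]` and periodicity).  With
`ε_j ≤ c 2^{-j}/(1 + Σ_{m ≤ j+2} C j m)` the series `Σ ε_j Ph j` is smooth (`contDiff_tsum`, `iteratedFDeriv_tsum`; for the finitely
many `j < m` any bound will do) and `|Σ ε_j Ph j|`, `‖D(..)‖`, `‖D²(..)‖ ≤ 2c`; `p = e^{κt} Σ ε_j Ph j`, and the derivatives of `e^{κt}`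
only bring factors `κ ≤ 1`. -/
def S_SUM : Prop := ∀ (P : ℕ → ℂ → ℝ), (∀ j, ContDiff ℝ ∞ (P j)) →
  (∀ j w, P j (w + tpi) = lam * P j w) → (∀ j w, 1 ≤ |w.re| → P j w = 0) →
  ∀ δ₀ : ℝ, 0 < δ₀ → ∃ δ : ℕ → ℝ, (∀ j, 0 < δ j) ∧ ∀ ε : ℕ → ℝ, (∀ j, 0 < ε j ∧ ε j ≤ δ j) →
    ContDiff ℝ ∞ (fun w => ∑' j, ε j * P j w) ∧
    (∀ w, (∑' j, ε j * P j (w + tpi)) = lam * ∑' j, ε j * P j w) ∧
    (∀ w, |∑' j, ε j * P j w| ≤ δ₀ * Real.exp (kap * w.im) ∧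
      ‖fderiv ℝ (fun w => ∑' j, ε j * P j w) w‖ ≤ δ₀ * Real.exp (kap * w.im) ∧
      |lapC (fun w => ∑' j, ε j * P j w) w| ≤ δ₀ * Real.exp (kap * w.im)) ∧
    ∀ w, Summable (fun j => ε j * lapC (P j) w) ∧
      lapC (fun w => ∑' j, ε j * P j w) w = ∑' j, ε j * lapC (P j) w

/-! ## Capacity -/

/-- PSI.  Logarithmic cut-off functions: `ψ(w) = χ(log(R²/‖w‖²)/log(R²/r²))`, `χ = smoothTransition`, `ψ = 1` near `0`.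
`‖∇ψ‖ ≤ C/(‖w‖ log(R/r))` on `r ≤ ‖w‖ ≤ R`, `∫ = 2πC²/log(R/r)` (polar coordinates). -/
def S_PSI : Prop := ∃ C₀ : ℝ, 0 < C₀ ∧ ∀ r R : ℝ, 0 < r → r < R → ∃ ψ : ℂ → ℝ, ContDiff ℝ ∞ ψ ∧
  (∀ w, 0 ≤ ψ w ∧ ψ w ≤ 1) ∧ (∀ w, ‖w‖ ≤ r → ψ w = 1) ∧ (∀ w, R ≤ ‖w‖ → ψ w = 0) ∧
  (∫ w, ‖fderiv ℝ ψ w‖ ^ 2) ≤ C₀ / Real.log (R / r)

/-- VN.  The test functions: `v = v₀(σ) Π_{x ∈ S} (1 - Σ_k ψ_x(w - x - 2πik))`, `v₀ = 1` for `|σ| ≤ a/4`, `v₀ = 0` for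
`|σ| ≥ 3a/8`.  The supports of the factors are disjoint discs (mod `2πi`), inside the cell, so
`|∇v|² ≤ 2|v₀'|² + 2Σ|∇ψ_x|²`. -/
def S_VN : Prop := ∀ a : ℝ, 0 < a → a ≤ 1 / 2 → ∃ C₁ : ℝ, ∀ (S : Finset ℂ) (r R : ℂ → ℝ),
  (∀ x ∈ S, 0 < r x ∧ r x < R x ∧ R x < x.im ∧ x.im + R x < 2 * Real.pi) →
  (∀ x ∈ S, ∀ y ∈ S, x ≠ y → R x + R y < ‖x - y‖) →
  (∑ x ∈ S, 1 / Real.log (R x / r x)) ≤ 2 → ∃ v : ℂ → ℝ, ContDiff ℝ ∞ v ∧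
    (∀ w, v (w + tpi) = v w) ∧ (∀ w, 0 ≤ v w ∧ v w ≤ 1) ∧ (∀ w, 3 * a / 8 ≤ |w.re| → v w = 0) ∧
    (∫ w in cell a, ‖fderiv ℝ v w‖ ^ 2) ≤ C₁ ∧
    (∀ w, |w.re| ≤ a / 4 → (∀ x ∈ S, R x ≤ |w.re - x.re|) → v w = 1) ∧
    ∀ x ∈ S, ∀ (k : ℤ) (w : ℂ), ‖w - x - k * tpi‖ ≤ r x → v w = 0

/-! ## Choice of the parameters and final assembly -/

/-- the centres of the block `j` -/
def ctrs (B : BlockData) (j : ℕ) : Finset ℂ :=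
  ((Finset.range (B.Ns j)) ×ˢ (Finset.range (B.Nt j))).image fun i => B.ctr j i.1 i.2

/-- The geometric part of the block data (`r j`: radii of the holes, `R j`: outer radii). -/
structure IsBlk (a ρ₀ : ℝ) (B : BlockData) (r R : ℕ → ℝ) : Prop where
  tau_eq : ∀ j, B.tau j = 2 - (1 / 2) ^ j
  b_pos : ∀ j, 0 < B.b j
  b_le : ∀ j, B.b j ≤ (1 / 2) ^ (j + 2)
  rho_pos : ∀ j, 0 < B.rho j
  rho_le : ∀ j, B.rho j ≤ ρ₀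
  rho_le' : ∀ j, B.rho j ≤ 1
  ratio : ∀ j, (2 : ℝ) ^ j ≤ B.b j / B.rho j
  a2_ge : ∀ j, 19 / 20 * a ≤ B.a2 j
  a2_lt : ∀ j, B.a2 j < a
  tile_s : ∀ j, (B.Ns j : ℝ) * B.rho j = 2 * B.a2 j
  tile_t : ∀ j, (B.Nt j : ℝ) * B.rho j = B.b j
  r_pos : ∀ j, 0 < r j
  r_lt : ∀ j, r j < R j
  R_lt : ∀ j, R j < B.rho j / 8
  sumR : ∀ j, (B.Ns j : ℝ) * R j ≤ a / 16 * (1 / 2) ^ (j + 1)
  sumE : ∀ j, (B.Ns j : ℝ) * B.Nt j / Real.log (R j / r j) ≤ (1 / 2) ^ j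

/-- PAR.  Choice of the parameters, for given fluxes `eps`: `b_j = 2^{-j-2}`, `Nt_j` a large integer (`≥ 2^j`, `≥ 20/a`, `≥ 1/ρ₀`),
`ρ_j = b_j/Nt_j`, `Ns_j = ⌈2a/ρ_j⌉ - 1` (so `2a - ρ_j ≤ Ns_j ρ_j < 2a`), `a2_j = Ns_j ρ_j/2`,
`R_j` small, then `r_j = R_j exp(-Ns_j Nt_j 2^j)`. -/
def S_PAR : Prop := ∀ (a ρ₀ : ℝ), 0 < a → a ≤ 1 / 2 → 0 < ρ₀ → ∃ (B : BlockData) (r R : ℕ → ℝ),
  IsBlk a ρ₀ B r R

/-- HOL.  Geometry of the holes: the points of `ctrs B j` are distinct and in the rectangle, the distance from a point of the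
closed ball `B(ctr, ρ_j/2)` to every other centre (of any block, any translate) is at least `ρ/2`: the ball is in the closed square of its
centre (up to its boundary), the squares of one block have disjoint interiors and side `ρ_j`, and the blocks have disjoint `t`-ranges
`[τ_j, τ_j+b_j] ⊂ [1,2)`. -/
def S_HOL : Prop := ∀ (a ρ₀ : ℝ) (B : BlockData) (r R : ℕ → ℝ), 0 < a → a ≤ 1 / 2 →
  IsBlk a ρ₀ B r R →
  (∀ j, ∀ x ∈ ctrs B j, |x.re| < a ∧ B.tau j + B.rho j / 2 ≤ x.im ∧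
    x.im ≤ B.tau j + B.b j - B.rho j / 2) ∧
  (∀ j, 1 ≤ B.tau j ∧ B.tau j + B.b j ≤ B.tau (j + 1) ∧ B.tau j + B.b j < 2) ∧
  (∀ j i i', i < B.Ns j → i' < B.Nt j → B.ctr j i i' ∈ ctrs B j) ∧
  (∀ j, ∀ x ∈ ctrs B j, ∀ w : ℂ, ‖w - x‖ ≤ B.rho j / 2 →
    (w ∈ strip a) ∧ (∀ x' ∈ ctrs B j, x' ≠ x → ∀ k : ℤ, B.rho j / 2 ≤ ‖w - x' - k * tpi‖) ∧
    (∀ j', j' ≠ j → ∀ x' ∈ ctrs B j', ∀ k : ℤ, B.rho j' / 2 ≤ ‖w - x' - k * tpi‖) ∧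
    ∀ k : ℤ, k ≠ 0 → B.rho j / 2 ≤ ‖w - x - k * tpi‖)

/-- CAP.  The capacity condition for `p = Σ ε_j P_j`: with `S_n = ∪_{j ≤ n} ctrs B j` and `v_n` from S_VN;
`G₀ = {σ ∈ (-a/4,a/4) : |σ - Re x| ≥ R_j for all x ∈ ctrs B j, all j}` has measure `≥ a/2 - Σ_j 2 Ns_j R_j ≥ a/4` (the real parts of the
centres of block `j` take `Ns_j` values);
`O_n` = complement of the closed discs `‖w - x - 2πik‖ ≤ r_j` (`j ≤ n`, `x ∈ ctrs B j`, `k ∈ ℤ`; a locally finite union) and of the closed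
slabs `2 - 2^{-n-1} ≤ Im w - 2πk ≤ 2`; on `O_n ∩ strip (3a/2)` every `lapC (P_j)` vanishes, and
`{v_n ≠ 0} ∖ O_n` is in the slab, whose area in the cell is `2a 2^{-n-1} ≤ 1/(n+1)`. -/
def S_CAP : Prop := ∀ (a ρ₀ : ℝ) (B : BlockData) (r R : ℕ → ℝ), 0 < a → a ≤ 1 / 2 →
  IsBlk a ρ₀ B r R → ∀ p : ℂ → ℝ,
    (∀ w ∈ strip (3 * a / 2), (∀ j, ∀ x ∈ ctrs B j, ∀ k : ℤ, r j ≤ ‖w - x - k * tpi‖) → lapC p w = 0) →
    IsCapacity a p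

end Pool.Agent.Helper15.AB
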